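import Pool.Agent.CW.NiceDef

set_option autoImplicit false

/-!
Closure properties of the class `HierA`.
-/

namespace Pool.Agent.CW

open Pool.Agent.HC (AmenableAction)

/-- the class is closed under subgroups (and isomorphisms) -/
theorem HierA.of_injective {G : Type} [inst : Group G] (h : HierA G) :
    ∀ (H : Type) [Group H] (f : H →* G), Function.Injective f → HierA H := by
  induction h with
  | triv G =>
    intro H _ f hf
    haveI : Subsingleton H := ⟨fun a b => hf (Subsingleton.elim _ _)⟩
    exact HierA.triv H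
  | tree G V T hT hadj hinv _ ih =>
    intro H _ f hf
    letI : MulAction H V := MulAction.compHom V f
    refine HierA.tree H V T hT (fun g u v huv => hadj (f g) u v huv)
      (fun g u v huv => hinv (f g) u v huv) fun v => ?_
    refine ih v (MulAction.stabilizer H v)
      (MonoidHom.mk' (fun g => (⟨f g.1, g.2⟩ : MulAction.stabilizer G v)) fun a b => ?_) ?_
    · exact Subtype.ext (map_mul f a.1 b.1)
    · intro a b hab
      exact Subtype.ext (hf (congrArg Subtype.val hab))
  | amen G Y hY _ ih =>
    intro H _ f hf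
    letI : MulAction H Y := MulAction.compHom Y f
    refine HierA.amen H Y ?_ fun y => ?_
    · classical
      intro F ε hε
      obtain ⟨E, hE, h2⟩ := hY (F.image f) ε hε
      exact ⟨E, hE, fun g hg => h2 (f g) (Finset.mem_image_of_mem _ hg)⟩
    · refine ih y (MulAction.stabilizer H y)
        (MonoidHom.mk' (fun g => (⟨f g.1, g.2⟩ : MulAction.stabilizer G y)) fun a b => ?_) ?_
      · exact Subtype.ext (map_mul f a.1 b.1)
      · intro a b hab
        exact Subtype.ext (hf (congrArg Subtype.val hab))
  | loc G _ ih =>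
    intro H _ f hf
    refine HierA.loc H fun K hK hK2 => ?_
    have hK3 : (K.map f).FG := by
      obtain ⟨S, hS⟩ := hK
      classical
      refine ⟨S.image f, ?_⟩
      rw [Finset.coe_image, ← MonoidHom.map_closure, hS]
    refine ih (K.map f) hK3 (fun g => ?_) K
      (MonoidHom.mk' (fun x => (⟨f x.1, Subgroup.mem_map_of_mem f x.2⟩ : K.map f)) fun a b =>
        Subtype.ext (map_mul f a.1 b.1)) ?_
    · have h1 := hK2 (g.comp (MonoidHom.mk'
        (fun x => (⟨f x.1, Subgroup.mem_map_of_mem f x.2⟩ : K.map f)) fun a b =>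
        Subtype.ext (map_mul f a.1 b.1)))
      ext ⟨y, x, hx, rfl⟩
      exact congrArg (fun φ : K →* Multiplicative ℤ => φ ⟨x, hx⟩) h1
    · intro a b hab
      exact Subtype.ext (hf (congrArg Subtype.val hab))

/-- groups with a homomorphism to an amenable group and kernel in the class -/
theorem HierA.ext {G Q : Type} [Group G] [Group Q] (p : G →* Q) (hQ : AmenableAction Q Q)
    (h : HierA p.ker) : HierA G := by
  classical
  letI : MulAction G Q := MulAction.compHom Q p
  refine HierA.amen G Q ?_ fun y => ?_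
  · intro F ε hε
    obtain ⟨E, hE, h2⟩ := hQ (F.image p) ε hε
    exact ⟨E, hE, fun g hg => h2 (p g) (Finset.mem_image_of_mem _ hg)⟩
  · refine h.of_injective _ (MonoidHom.mk' (fun g => (⟨g.1, ?_⟩ : p.ker)) fun a b => rfl) ?_
    · have h1 : p g.1 * y = y := g.2
      exact (MonoidHom.mem_ker).2 (mul_eq_right.1 h1)
    · intro a b hab
      exact Subtype.ext (congrArg (fun x : p.ker => x.1) hab)

/-- amenable groups belong to the class -/
theorem HierA.amenable {G : Type} [Group G] (h : AmenableAction G G) : HierA G := by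
  refine HierA.ext (MonoidHom.id G) h ?_
  haveI : Subsingleton (MonoidHom.id G).ker := by
    rw [MonoidHom.ker_id]
    infer_instance
  exact HierA.triv _

/-- groups with a subgroup of the class of finite index -/
theorem HierA.finite {G : Type} [Group G] (H : Subgroup G) [H.FiniteIndex] (h : HierA H) :
    HierA G := by
  classical
  haveI : Finite (G ⧸ H) := Subgroup.finite_quotient_of_finiteIndex
  haveI : Fintype (G ⧸ H) := Fintype.ofFinite _
  refine HierA.amen G (G ⧸ H) ?_ fun y => ?_
  · intro F ε hε
    refine ⟨Finset.univ, Finset.univ_nonempty, fun g _ => ?_⟩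
    have h1 : {x : G ⧸ H | x ∈ (Finset.univ : Finset (G ⧸ H)) ∧
        g • x ∉ (Finset.univ : Finset (G ⧸ H))} = ∅ := by
      ext x
      simp
    rw [h1, Set.ncard_empty]
    simpa using mul_nonneg hε.le (Nat.cast_nonneg _)
  · obtain ⟨g, rfl⟩ := QuotientGroup.mk_surjective y
    refine h.of_injective _ (MonoidHom.mk' (fun x => (⟨g⁻¹ * x.1 * g, ?_⟩ : H)) fun a b => ?_) ?_
    · have h1 : x.1 • (QuotientGroup.mk g : G ⧸ H) = QuotientGroup.mk g := x.2
      rw [MulAction.Quotient.smul_mk, smul_eq_mul, eq_comm, QuotientGroup.eq] at h1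
      rwa [mul_assoc]
    · refine Subtype.ext ?_
      simp only [Subgroup.coe_mul]
      group
    · intro a b hab
      have h1 : g⁻¹ * a.1 * g = g⁻¹ * b.1 * g := congrArg Subtype.val hab
      exact Subtype.ext (mul_left_cancel (mul_right_cancel h1))

/-- directed unions of groups of the class -/
theorem HierA.union {G : Type} [Group G] (H : Finset G → Subgroup G) (hH : ∀ F, ∀ g ∈ F, g ∈ H F)
    (h : ∀ F : Finset G, HierA (H F)) : HierA G := by
  classical
  refine HierA.amen G (Σ F : Finset G, G ⧸ H F) ?_ ?_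
  · intro F ε hε
    refine ⟨{⟨F, QuotientGroup.mk 1⟩}, Finset.singleton_nonempty _, fun g hg => ?_⟩
    have h1 : {x : Σ F : Finset G, G ⧸ H F | x ∈ ({⟨F, QuotientGroup.mk 1⟩} :
        Finset (Σ F : Finset G, G ⧸ H F)) ∧ g • x ∉ ({⟨F, QuotientGroup.mk 1⟩} :
        Finset (Σ F : Finset G, G ⧸ H F))} = ∅ := by
      ext x
      simp only [Finset.mem_singleton, Set.mem_setOf_eq, Set.mem_empty_iff_false, iff_false,
        not_and, not_not]
      rintro rfl
      refine Sigma.ext rfl (heq_of_eq ?_)
      show g • (QuotientGroup.mk 1 : G ⧸ H F) = QuotientGroup.mk 1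
      rw [MulAction.Quotient.smul_mk, smul_eq_mul, mul_one, QuotientGroup.eq, mul_one]
      exact inv_mem (hH F g hg)
    rw [h1, Set.ncard_empty]
    simp [hε.le]
  · rintro ⟨F, y⟩
    obtain ⟨g, rfl⟩ := QuotientGroup.mk_surjective y
    refine (h F).of_injective _ (MonoidHom.mk' (fun x => (⟨g⁻¹ * x.1 * g, ?_⟩ : H F))
      fun a b => ?_) ?_
    · have h0 : x.1 • (⟨F, QuotientGroup.mk g⟩ : Σ F : Finset G, G ⧸ H F)
        = ⟨F, QuotientGroup.mk g⟩ := x.2
      have h1 : x.1 • (QuotientGroup.mk g : G ⧸ H F) = QuotientGroup.mk g :=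
        eq_of_heq (Sigma.mk.inj_iff.1 h0).2
      rw [MulAction.Quotient.smul_mk, smul_eq_mul, eq_comm, QuotientGroup.eq] at h1
      rwa [mul_assoc]
    · refine Subtype.ext ?_
      simp only [Subgroup.coe_mul]
      group
    · intro a b hab
      have h1 : g⁻¹ * a.1 * g = g⁻¹ * b.1 * g := congrArg Subtype.val hab
      exact Subtype.ext (mul_left_cancel (mul_right_cancel h1))

/-- all subgroups are nice in a group of the class -/
theorem Nice.of_hierA {k : Subring ℂ} {A : Type} [Group A] (h : HierA A) (C : Subgroup A) :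
    Nice k A C := by
  refine Nice.hier A C ⊥ bot_le ?_
  exact h.of_injective _ (QuotientGroup.quotientBot : A ⧸ (⊥ : Subgroup A) ≃* A).toMonoidHom
    (QuotientGroup.quotientBot : A ⧸ (⊥ : Subgroup A) ≃* A).injective

end Pool.Agent.CW
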