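import Pool.Agent.HC.CoAm
import Pool.Agent.HC.Tree

set_option autoImplicit false
set_option linter.unusedSectionVars false

noncomputable section

open scoped InnerProductSpace ENNReal Topology
open Classical Filter ContinuousLinearMap

/-!
Amenable actions on arbitrary sets.
-/

namespace Pool.Agent.CW

open Pool.Agent.VN Pool.Agent.LFT Pool.Agent.HI Pool.Agent.HC Pool.Agent.EH

variable {k : Subring ℂ}

/-- transport along an isomorphism -/
lemma keyG_of_iso {G H Φ Φ' : Type} [Group G] [Group H] [MulAction G Φ'] [MulAction H Φ]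
    (f : H →* G) (hfi : Function.Injective f) (hfs : Function.Surjective f) (j : Φ → Φ')
    (hj : ∀ (s : H) φ, j (s • φ) = f s • j φ) (hji : Function.Injective j)
    (hjs : Function.Surjective j) (h : KeyG k H Φ) : KeyG k G Φ' := by
  intro ι _ d P hP hl u Y hY ε hε
  exact keyS_orbit' (k := k) (fun _ : Φ' => ()) (fun _ _ => rfl) () f hfi
    (fun g => ⟨fun _ => hfs g, fun _ => rfl⟩) j hj hji (fun δ _ => hjs δ) h ι inferInstance d
    (fun i => ⟨1, rfl⟩) P hP hl u Y hY ε hε

variable {A X Y : Type} [Group A] [MulAction A X] [MulAction A Y]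

/-- the formula over a set -/
theorem af_set (h : ∀ y : Y, KeyG k (MulAction.stabilizer A y) X) :
    AF k (Sd (Lett X) A)
      (Prod.map (ta (Lett X) A) id : TD (Lett X) A × Via (rh (Lett X) A) Y →
        TA (Lett X) A × Via (rh (Lett X) A) Y)
      (Prod.map (tb (Lett X) A) id : TD (Lett X) A × Via (rh (Lett X) A) Y →
        TB (Lett X) A × Via (rh (Lett X) A) Y) := by
  have ha : Eqv (Sd (Lett X) A) (Prod.map (ta (Lett X) A) id :
      TD (Lett X) A × Via (rh (Lett X) A) Y → TA (Lett X) A × Via (rh (Lett X) A) Y) := by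
    rintro g ⟨δ, c⟩
    rfl
  have hb : Eqv (Sd (Lett X) A) (Prod.map (tb (Lett X) A) id :
      TD (Lett X) A × Via (rh (Lett X) A) Y → TB (Lett X) A × Via (rh (Lett X) A) Y) := by
    rintro g ⟨δ, c⟩
    exact Prod.ext (tb_smul _ _ g δ) rfl
  refine af_of_keys ha hb (Half.prod (t_half (Lett X) A) _) (keyS_of_stab _ ha ?_) ?_
  · rintro ⟨f, y⟩
    change FreeGroup (Lett X) at f
    let i3 := fibAct _ ha ((f, y) : TA (Lett X) A × Via (rh (Lett X) A) Y)
    -- the conjugate
    have hfix : ∀ s : MulAction.stabilizer A (ofVia y),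
        ((SemidirectProduct.inl f : Sd (Lett X) A) * ir (Lett X) A s.1 *
          (SemidirectProduct.inl f : Sd (Lett X) A)⁻¹) •
          ((f, y) : TA (Lett X) A × Via (rh (Lett X) A) Y) = (f, y) := by
      intro s
      rw [mul_smul, mul_smul, ← map_inv]
      refine Prod.ext ?_ ?_
      · show f * phi (Lett X) A 1 ((1 : FreeGroup (Lett X)) * phi (Lett X) A s.1
          (f⁻¹ * phi (Lett X) A 1 f)) = f
        rw [map_one, MulAut.one_apply, MulAut.one_apply, inv_mul_cancel, map_one, mul_one, mul_one]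
      · show (1 : A) • s.1 • (1 : A) • ofVia y = ofVia y
        rw [one_smul, one_smul]
        exact s.2
    let F : MulAction.stabilizer A (ofVia y) →* MulAction.stabilizer (Sd (Lett X) A)
        ((f, y) : TA (Lett X) A × Via (rh (Lett X) A) Y) :=
      MonoidHom.mk' (fun s => ⟨_, hfix s⟩) fun s t => by
        apply Subtype.ext
        show (SemidirectProduct.inl f : Sd (Lett X) A) * ir (Lett X) A (s.1 * t.1) *
          (SemidirectProduct.inl f : Sd (Lett X) A)⁻¹ =
          ((SemidirectProduct.inl f : Sd (Lett X) A) * ir (Lett X) A s.1 *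
          (SemidirectProduct.inl f : Sd (Lett X) A)⁻¹) *
          ((SemidirectProduct.inl f : Sd (Lett X) A) * ir (Lett X) A t.1 *
          (SemidirectProduct.inl f : Sd (Lett X) A)⁻¹)
        rw [map_mul]
        group
    have hr : ∀ s, (F s).1.right = s.1 := by
      intro s
      show (1 : A) * s.1 * 1⁻¹ = s.1
      group
    refine keyG_of_iso (Φ := LB X) F ?_ ?_
      (fun x => ⟨((f, (x.1, x.2.1), x.2.2), y), rfl⟩) ?_ ?_ ?_ (keyG_LB (h (ofVia y)))
    · intro s t hst
      apply Subtype.ext
      rw [← hr s, ← hr t, hst]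
    · rintro ⟨g, hg⟩
      have h1 : g.left * phi (Lett X) A g.right f = f := (Prod.mk.inj hg).1
      have h2 : g.right • ofVia y = ofVia y := (Prod.mk.inj hg).2
      refine ⟨⟨g.right, h2⟩, Subtype.ext ?_⟩
      refine SemidirectProduct.ext ?_ (hr _)
      show f * phi (Lett X) A 1 1 * phi (Lett X) A (1 * g.right)
        (phi (Lett X) A 1⁻¹ f⁻¹) = g.left
      have e1 : phi (Lett X) A 1 1 = 1 := map_one _
      have e2 : phi (Lett X) A 1 f⁻¹ = f⁻¹ := by
        rw [map_one, MulAut.one_apply]
      rw [inv_one, one_mul, e1, mul_one, e2, map_inv]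
      rw [mul_inv_eq_iff_eq_mul]
      exact h1.symm
    · rintro s ⟨x, n, c⟩
      apply Subtype.ext
      have h3 := hfix s
      have h4 : (F s).1.left * phi (Lett X) A (F s).1.right f = f := (Prod.mk.inj h3).1
      refine Prod.ext ?_ ?_
      · show ((f, (s.1 • x, n), c) : TD (Lett X) A) =
          ((F s).1.left * phi (Lett X) A (F s).1.right f, (((F s).1.right • x, n) : Lett X), c)
        rw [h4, hr s]
        try rfl
      · exact (Prod.mk.inj h3).2.symm
    · rintro ⟨x, n, c⟩ ⟨x', n', c'⟩ hx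
      have h1 := congrArg (fun q => q.1.1.2) hx
      have h2 : ((x, n) : Lett X) = (x', n') := (Prod.mk.inj h1).1
      have h3 : c = c' := (Prod.mk.inj h1).2
      have h4 : x = x' := congrArg Prod.fst h2
      have h5 : n = n' := congrArg Prod.snd h2
      subst h3 h4 h5
      rfl
    · rintro ⟨⟨⟨f', x, c⟩, y'⟩, hδ⟩
      have h1 : f' = f := (Prod.mk.inj hδ).1
      have h2 : y' = y := (Prod.mk.inj hδ).2
      subst h1 h2
      exact ⟨((x.1, x.2, c) : X × ℕ × Bool), rfl⟩
  · intro ι _ d P hP hl u Y hY ε hε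
    refine key_of_stab hb ?_ d hP hl u hY hε
    rintro g ⟨δ, c⟩ h
    have h2 : g • c = c := congrArg Prod.snd h
    exact Prod.ext (stab_dart g δ (congrArg Prod.fst h)) h2

/-- amenable actions on sets -/
theorem keyG_amset (hA : AtiyahOver k A) (hY : AmSet A Y)
    (h : ∀ y : Y, KeyG k (MulAction.stabilizer A y) X) : KeyG k A X :=
  key_of_af hA (af_foel (fun g δ => ta_smul _ A g δ) (fun g δ => tb_smul _ A g δ)
    (fun _ _ => rfl) (foel_of_am (rh (Lett X) A) hY) (af_set h) (int_ta hA) (int_tb hA))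

end Pool.Agent.CW
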