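import Pool.Agent.CW.Ops
import Pool.Agent.HL.Final

set_option autoImplicit false
set_option linter.unusedSectionVars false

noncomputable section

open scoped InnerProductSpace ENNReal Topology
open Classical Filter ContinuousLinearMap

/-!
The local step.
-/

namespace Pool.Agent.CW

open Pool.Agent.VN Pool.Agent.LFT Pool.Agent.HI Pool.Agent.HC Pool.Agent.HX Pool.Agent.HL
open Pool.Agent.HE (phi_triv)

/-- all finitely generated subgroups without nontrivial homomorphisms to the integers have the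
property `PW` -/
def LW (k : Subring ℂ) (Q : Type) [Group Q] : Prop :=
  ∀ H : Subgroup Q, H.FG → (∀ f : H →* Multiplicative ℤ, f = 1) → PW k H

/-- the quotient of a subgroup of the group with letters -/
theorem pw_sd (k : Subring ℂ) (Q : Type) [Group Q] (h : LW k Q) {A Ξ : Type} [Group A]
    [MulAction A Ξ] (p : A →* Q) (htriv : ∀ a ∈ p.ker, ∀ ξ : Ξ, a • ξ = ξ)
    (N0 : Subgroup (Sd (Lett Ξ) A)) [N0.Normal]
    (hN0 : ∀ g, g ∈ N0 ↔ g.left = 1 ∧ g.right ∈ p.ker)
    (S : Finset (Sd (Lett Ξ) A))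
    (hK : ∀ f : ↥(N0 ⊔ Subgroup.closure (S : Set (Sd (Lett Ξ) A))) →* Multiplicative ℤ,
      (∀ n : ↥(N0 ⊔ Subgroup.closure (S : Set (Sd (Lett Ξ) A))), (n : Sd (Lett Ξ) A) ∈ N0 →
        f n = 1) → f = 1) :
    PW k (↥(N0 ⊔ Subgroup.closure (S : Set (Sd (Lett Ξ) A))) ⧸
      N0.subgroupOf (N0 ⊔ Subgroup.closure (S : Set (Sd (Lett Ξ) A)))) := by
  obtain ⟨K, hKdef⟩ : ∃ K : Subgroup (Sd (Lett Ξ) A), K =
    N0 ⊔ Subgroup.closure (S : Set (Sd (Lett Ξ) A)) := ⟨_, rfl⟩
  rw [← hKdef] at hK ⊢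
  -- elements of the kernel act trivially on the letters
  have hlett : ∀ a ∈ p.ker, ∀ x : Lett Ξ, a • x = x := by
    intro a ha x
    exact Prod.ext (htriv a ha x.1) rfl
  -- the homomorphism to `Q`
  let θ : K →* Q := (p.comp (rh (Lett Ξ) A)).comp K.subtype
  have hθ : ∀ n ∈ N0.subgroupOf K, θ n = 1 := by
    intro n hn
    exact ((hN0 _).1 (Subgroup.mem_subgroupOf.1 hn)).2
  let ρ : K ⧸ N0.subgroupOf K →* Q := QuotientGroup.lift _ θ hθ
  have hρ : ∀ g : K, ρ (QuotientGroup.mk g) = p g.1.right := fun g => rfl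
  -- its image
  have hrange : ρ.range = Subgroup.closure ((S.image fun g => p g.right : Finset Q) : Set Q) := by
    have h1 : ρ.range = K.map (p.comp (rh (Lett Ξ) A)) := by
      ext q
      constructor
      · rintro ⟨x, rfl⟩
        obtain ⟨g, rfl⟩ := QuotientGroup.mk_surjective x
        exact ⟨g.1, g.2, rfl⟩
      · rintro ⟨g, hg, rfl⟩
        exact ⟨QuotientGroup.mk ⟨g, hg⟩, rfl⟩
    rw [h1, hKdef, Subgroup.map_sup, MonoidHom.map_closure]
    have h2 : N0.map (p.comp (rh (Lett Ξ) A)) = ⊥ := by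
      rw [eq_bot_iff]
      rintro _ ⟨g, hg, rfl⟩
      exact ((hN0 g).1 hg).2
    rw [h2, bot_sup_eq, Finset.coe_image]
    rfl
  have hFG : ρ.range.FG := ⟨_, hrange.symm⟩
  have hnoZ : ∀ f : ρ.range →* Multiplicative ℤ, f = 1 := by
    intro f
    have h1 := hK ((f.comp ρ.rangeRestrict).comp (QuotientGroup.mk' _)) (by
      intro n hn
      have h2 : (QuotientGroup.mk' (N0.subgroupOf K)) n = 1 := by
        rw [QuotientGroup.mk'_apply, QuotientGroup.eq_one_iff]
        exact Subgroup.mem_subgroupOf.2 hn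
      rw [MonoidHom.comp_apply, h2, map_one])
    apply MonoidHom.ext
    intro y
    obtain ⟨x, hx⟩ := ρ.rangeRestrict_surjective y
    obtain ⟨g, rfl⟩ := QuotientGroup.mk_surjective x
    rw [← hx]
    exact DFunLike.congr_fun h1 g
  have hPB : PW k ρ.range := h ρ.range hFG hnoZ
  -- elements with trivial left part and image one are trivial
  have htr1 : ∀ g : K, g.1.left = 1 → p g.1.right = 1 →
      (QuotientGroup.mk g : K ⧸ N0.subgroupOf K) = 1 := by
    intro g h1 h2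
    rw [QuotientGroup.eq_one_iff]
    exact Subgroup.mem_subgroupOf.2 ((hN0 _).2 ⟨h1, h2⟩)
  -- the actions
  have hpt : ∀ n ∈ N0.subgroupOf K, n.1.left = 1 ∧ n.1.right ∈ p.ker := fun n hn =>
    (hN0 _).1 (Subgroup.mem_subgroupOf.1 hn)
  have hA : ∀ n ∈ N0.subgroupOf K, ∀ f : TA (Lett Ξ) A, n • f = f := by
    intro n hn f
    show n.1.left * phi (Lett Ξ) A n.1.right f = f
    rw [(hpt n hn).1, phi_triv (hlett _ (hpt n hn).2), one_mul]
  have hB : ∀ n ∈ N0.subgroupOf K, ∀ f : TB (Lett Ξ) A, n • f = f := by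
    intro n hn f
    show ((n.1.left * phi (Lett Ξ) A n.1.right f.1, n.1.right • f.2) :
      FreeGroup (Lett Ξ) × Lett Ξ) = f
    rw [(hpt n hn).1, phi_triv (hlett _ (hpt n hn).2), one_mul, hlett _ (hpt n hn).2]
    rfl
  have hD : ∀ n ∈ N0.subgroupOf K, ∀ f : TD (Lett Ξ) A, n • f = f := by
    intro n hn f
    show ((n.1.left * phi (Lett Ξ) A n.1.right f.1, n.1.right • f.2.1, f.2.2) :
      FreeGroup (Lett Ξ) × Lett Ξ × Bool) = f
    rw [(hpt n hn).1, phi_triv (hlett _ (hpt n hn).2), one_mul, hlett _ (hpt n hn).2]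
    rfl
  by_cases hne : Nonempty (Lett Ξ)
  swap
  · -- no letters
    rw [not_nonempty_iff] at hne
    refine pw_of_inj ρ.rangeRestrict ?_ hPB
    rw [injective_iff_map_eq_one]
    intro x hx
    obtain ⟨g, rfl⟩ := QuotientGroup.mk_surjective x
    exact htr1 g (Subsingleton.elim _ _) (congrArg Subtype.val hx)
  obtain ⟨x0⟩ := hne
  let iA : MulAction (K ⧸ N0.subgroupOf K) (TA (Lett Ξ) A) := C3_act _ hA
  let iB : MulAction (K ⧸ N0.subgroupOf K) (TB (Lett Ξ) A) := C3_act _ hB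
  let iD : MulAction (K ⧸ N0.subgroupOf K) (TD (Lett Ξ) A) := C3_act _ hD
  have eA : ∀ (g : K) (f : TA (Lett Ξ) A),
      (QuotientGroup.mk g : K ⧸ N0.subgroupOf K) • f = g • f := fun g f => rfl
  have eB : ∀ (g : K) (f : TB (Lett Ξ) A),
      (QuotientGroup.mk g : K ⧸ N0.subgroupOf K) • f = g • f := fun g f => rfl
  have eD : ∀ (g : K) (f : TD (Lett Ξ) A),
      (QuotientGroup.mk g : K ⧸ N0.subgroupOf K) • f = g • f := fun g f => rfl
  refine pw_forest (α0 := ta (Lett Ξ) A) (α1 := tb (Lett Ξ) A) ?_ ?_ ?_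
    (t_half (Lett Ξ) A) (t_conn (Lett Ξ) A) (fun e : TB (Lett Ξ) A => e.1) ?_
    ((1, x0, true) : FreeGroup (Lett Ξ) × Lett Ξ × Bool) ?_
  · intro g δ
    obtain ⟨g, rfl⟩ := QuotientGroup.mk_surjective g
    rfl
  · intro g δ
    obtain ⟨g, rfl⟩ := QuotientGroup.mk_surjective g
    exact tb_smul (Lett Ξ) A g.1 δ
  · rintro g ⟨f, x, b⟩ hg
    obtain ⟨g, rfl⟩ := QuotientGroup.mk_surjective g
    rw [eB] at hg
    rw [eD]
    have h1 : g.1.right • x = x := congrArg Prod.snd hg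
    have h2 : g.1.left * phi (Lett Ξ) A g.1.right (tb (Lett Ξ) A (f, x, b)).1 =
      (tb (Lett Ξ) A (f, x, b)).1 := congrArg Prod.fst hg
    have h3 : g.1.left * phi (Lett Ξ) A g.1.right f = f := by
      cases b
      · have h4 : g.1.left * phi (Lett Ξ) A g.1.right (f * (FreeGroup.of x)⁻¹) =
          f * (FreeGroup.of x)⁻¹ := h2
        rw [map_mul, map_inv, phi_of, h1, ← mul_assoc] at h4
        exact mul_right_cancel h4
      · exact h2
    show ((g.1.left * phi (Lett Ξ) A g.1.right f, g.1.right • x, b) :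
      FreeGroup (Lett Ξ) × Lett Ξ × Bool) = (f, x, b)
    rw [h3, h1]
  · intro g e
    obtain ⟨g, rfl⟩ := QuotientGroup.mk_surjective g
    rfl
  · intro v
    refine pw_of_inj
      (ρ.rangeRestrict.comp (MulAction.stabilizer (K ⧸ N0.subgroupOf K) v).subtype) ?_ hPB
    rw [injective_iff_map_eq_one]
    rintro ⟨x, hx⟩ hx1
    obtain ⟨g, rfl⟩ := QuotientGroup.mk_surjective x
    apply Subtype.ext
    have h1 : p g.1.right = 1 := congrArg Subtype.val hx1
    have h2 : g.1.left * phi (Lett Ξ) A g.1.right v = v := hx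
    rw [phi_triv (hlett _ h1)] at h2
    exact htr1 g (mul_eq_right.mp h2) h1

section Local

variable {k : Subring ℂ} {A Q Ξ : Type} [Group A] [Group Q] [MulAction A Ξ]

/-- the group with letters over a group with the property `PW` -/
theorem atiyah_sd (hQ : PW k Q) (π : A →* Q) (hA : AtiyahOver k A)
    (hX : ∀ a : A, π a = 1 → ∀ x : Ξ, a • x = x) : AtiyahOver k (Sd (Lett Ξ) A) := by
  have hXL : ∀ a : A, π a = 1 → ∀ x : Lett Ξ, a • x = x :=
    fun a ha x => Prod.ext (hX a ha x.1) rfl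
  rcases isEmpty_or_nonempty Ξ with he | ⟨⟨x0⟩⟩
  · refine AtiyahOver.of_injective hA (rh (Lett Ξ) A) ?_
    intro a b hab
    have : IsEmpty (Lett Ξ) := ⟨fun x => he.false x.1⟩
    exact SemidirectProduct.ext (Subsingleton.elim _ _) hab
  have hPW : ∀ v : Unit, PW k (MulAction.stabilizer Q v) := fun v =>
    pw_of_inj (MulAction.stabilizer Q v).subtype Subtype.val_injective hQ
  have hf0 := af_letters (k := k) π hA hXL (id : Unit → Unit) (fun _ _ => rfl) hPW
  refine atiyah_of_int0 (Int0.of_map (M' := Via (π.comp (rh (Lett Ξ) A)) Unit) (fun _ => toVia _ ())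
    (fun _ _ => rfl) ?_)
  refine int_of_af (β := fun x : TD (Lett Ξ) A × Via (π.comp (rh (Lett Ξ) A)) Unit => x.2) ?_ ?_ ?_
    ?_ ?_ hf0 (int_ta hA) (int_tb hA)
  · rintro g ⟨δ, c⟩
    rfl
  · rintro g ⟨δ, c⟩
    exact Prod.ext (tb_smul _ _ g δ) rfl
  · rintro g ⟨δ, c⟩
    rfl
  · intro w
    exact ⟨(((1 : FreeGroup (Lett Ξ)), ((x0, 0) : Lett Ξ), true), w), rfl⟩
  · rintro ⟨δ, u⟩ ⟨δ', u'⟩ hu
    have hu' : u = u' := hu
    subst hu'
    exact conn_prod (t_conn (Lett Ξ) A δ δ') u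

/-- the group with letters satisfies the conjecture -/
theorem atiyah_sd_local (hQ : LW k Q) (π : A →* Q) (hA : AtiyahOver k A)
    (hX : ∀ a : A, π a = 1 → ∀ x : Ξ, a • x = x) : AtiyahOver k (Sd (Lett Ξ) A) := by
  refine atiyah_of_fg k _ fun H hH hf => ?_
  set θ : Sd (Lett Ξ) A →* Q := π.comp (rh (Lett Ξ) A) with hθ
  set p1 : H →* H.map θ := θ.subgroupMap H with hp1
  have hsurj : Function.Surjective p1 := θ.subgroupMap_surjective H
  have hFG : (H.map θ).FG := by
    classical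
    obtain ⟨S, hS⟩ := hH
    refine ⟨S.image θ, ?_⟩
    rw [Finset.coe_image, ← MonoidHom.map_closure, hS]
  have hPW : PW k (H.map θ) := by
    refine hQ (H.map θ) hFG fun f => ?_
    refine MonoidHom.ext fun x => ?_
    obtain ⟨y, rfl⟩ := hsurj x
    exact DFunLike.congr_fun (hf (f.comp p1)) y
  have h1 : AtiyahOver k (Sd (Lett Ξ) ((H.map θ).comap π)) :=
    atiyah_sd (A := (H.map θ).comap π) (Ξ := Ξ) hPW (π.subgroupComap (H.map θ))
      (AtiyahOver.of_injective hA (Subgroup.subtype _) Subtype.val_injective)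
      (fun a ha x => hX a.1 (congrArg Subtype.val ha) x)
  have hmem : ∀ g : H, g.1.right ∈ (H.map θ).comap π := fun g => ⟨g.1, g.2, rfl⟩
  refine AtiyahOver.of_injective h1 (MonoidHom.mk' (fun g : H =>
    (⟨g.1.left, ⟨g.1.right, hmem g⟩⟩ : Sd (Lett Ξ) ((H.map θ).comap π))) fun a b => ?_) ?_
  · refine SemidirectProduct.ext ?_ rfl
    rfl
  · intro a b hab
    apply Subtype.ext
    refine SemidirectProduct.ext ?_ ?_
    · exact congrArg (fun x => x.left) hab
    · exact congrArg (fun x => x.right.1) hab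

end Local

/-- the local step -/
theorem pw_local (k : Subring ℂ) (Q : Type) [Group Q] (h : LW k Q) : PW k Q := by
  intro A _ p hA X _ hX
  have htriv : ∀ a ∈ p.ker, ∀ ξ : X, a • ξ = ξ := fun a ha => hX a ha
  have hE : AtiyahOver k (Sd (Lett X) A) := atiyah_sd_local h p hA hX
  refine key_of_pi hE ?_
  intro ι _ ξ Z hZ hinv hinv' n
  obtain ⟨U, F, _, _, ⟨M⟩⟩ := exists_mdl k _ hE
  set N0 : Subgroup (Sd (Lett X) A) := p.ker.map (ir (Lett X) A) with hN0
  have hmem : ∀ g, g ∈ N0 ↔ g.left = 1 ∧ g.right ∈ p.ker := by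
    intro g
    constructor
    · rintro ⟨a, ha, rfl⟩
      exact ⟨rfl, ha⟩
    · rintro ⟨h1, h2⟩
      exact ⟨g.right, h2, SemidirectProduct.ext h1.symm rfl⟩
  have htriv' : ∀ a : A, p a = 1 → ∀ x : Lett X, a • x = x :=
    fun a ha x => Prod.ext (hX a ha x.1) rfl
  have hnorm : N0.Normal := by
    refine ⟨fun n hn g => ?_⟩
    rw [hmem] at hn ⊢
    have hr : (g * n * g⁻¹).right ∈ p.ker := (MonoidHom.normal_ker p).conj_mem _ hn.2 g.right
    refine ⟨?_, hr⟩
    have hph : ∀ f, phi (Lett X) A (g.right * n.right * g.right⁻¹) f = f := fun f =>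
      phi_triv (htriv' _ hr) f
    have e1 : (g * n * g⁻¹).left = g.left * phi (Lett X) A (g.right * n.right)
        (phi (Lett X) A g.right⁻¹ g.left⁻¹) := by
      rw [SemidirectProduct.mul_left, SemidirectProduct.mul_left, hn.1, map_one, mul_one,
        SemidirectProduct.inv_left, SemidirectProduct.mul_right]
    rw [e1, ← MulAut.mul_apply, ← map_mul, hph, mul_inv_cancel]
  have hip : IPat (M.D.restrict k) N0 ⊤ := by
    refine ip_alg _ (mdl_hF M) (mdl_hE M) (mdl_all M) (rc_form _ (mdl_all M)) N0 ?_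
    intro S hS
    refine ip_base hE M N0 _ le_sup_left fun C' hC' => ?_
    refine pw_sd k Q h p htriv N0 hmem S hS _ (QuotientGroup.mk' _)
      (AtiyahOver.of_injective hE (Subgroup.subtype _) Subtype.val_injective) _ ?_
    intro a ha x
    obtain ⟨g, rfl⟩ := QuotientGroup.mk_surjective x
    rw [MulAction.Quotient.smul_coe, smul_eq_mul, eq_comm, QuotientGroup.eq]
    apply hC'
    have h1 : g⁻¹ * (a * g) = g⁻¹ * a * g⁻¹⁻¹ := by group
    rw [h1]
    have h2 := (QuotientGroup.eq_one_iff a).1 ha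
    exact Subgroup.Normal.conj_mem inferInstance a h2 g⁻¹
  exact pi_letters M N0 (fun g hg => ⟨((hmem g).1 hg).1, htriv _ ((hmem g).1 hg).2⟩) hip ξ hZ
    hinv hinv' n

end Pool.Agent.CW
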