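import Pool.Agent.CW.Tree

set_option autoImplicit false
set_option linter.unusedSectionVars false

noncomputable section

open scoped InnerProductSpace ENNReal Topology
open Classical Filter ContinuousLinearMap

/-!
Trivial groups, amenable actions and directed unions.
-/

namespace Pool.Agent.CW

open Pool.Agent.VN Pool.Agent.LFT Pool.Agent.HI Pool.Agent.HC Pool.Agent.EH

variable {k : Subring ℂ}

/-- trivial actions -/
lemma keyG_triv {A X : Type} [Group A] [MulAction A X] (h : ∀ (a : A) (x : X), a • x = x) :
    KeyG k A X := by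
  intro ι _ d P hP hl u Y hY ε hε
  exact key_of_stab (k := k) (a := fun _ : X => ()) (fun _ _ => rfl) (fun g δ _ => h g δ) d hP hl
    u hY hε

theorem pw_triv (Q : Type) [Group Q] [Subsingleton Q] : PW k Q := by
  intro A _ π _ X _ hX
  exact keyG_triv fun a x => hX a (Subsingleton.elim _ _) x

/-- amenable actions -/
theorem pw_amen {Q Y : Type} [Group Q] [MulAction Q Y] (hY : AmSet Q Y)
    (h : ∀ y : Y, PW k (MulAction.stabilizer Q y)) : PW k Q := by
  intro A _ π hA X _ hX
  have hXL : ∀ a : A, π a = 1 → ∀ x : Lett X, a • x = x :=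
    fun a ha x => Prod.ext (hX a ha x.1) rfl
  refine key_of_af hA ?_
  exact af_foel (fun g δ => ta_smul _ A g δ) (fun g δ => tb_smul _ A g δ)
    (fun _ _ => rfl) (foel_of_am (π.comp (rh (Lett X) A)) hY)
    (af_letters (k := k) π hA hXL (id : Y → Y) (fun _ _ => rfl) h) (int_ta hA) (int_tb hA)

/-- directed unions -/
theorem pw_union {Q : Type} [Group Q] (H : Finset Q → Subgroup Q) (hH : ∀ F, ∀ g ∈ F, g ∈ H F)
    (h : ∀ F, PW k (H F)) : PW k Q := by
  intro A _ π hA X _ hX
  refine key_union hA (fun F => (H (F.image π)).comap π) (fun F g hg =>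
    hH _ _ (Finset.mem_image_of_mem _ hg)) fun F => ?_
  refine h (F.image π) ((H (F.image π)).comap π) (π.subgroupComap (H (F.image π)))
    (AtiyahOver.of_injective hA (Subgroup.subtype _) Subtype.val_injective) X ?_
  intro a ha x
  exact hX a.1 (congrArg Subtype.val ha) x

end Pool.Agent.CW
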