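import Pool.Agent.CW.NiceDef
import Pool.Agent.CW.Ops
import Pool.Agent.CW.Local
import Pool.Agent.CW.AmSet
import Pool.Agent.HC.NiceKey

set_option autoImplicit false
set_option linter.unusedSectionVars false

noncomputable section

open scoped InnerProductSpace ENNReal Topology
open Classical Filter ContinuousLinearMap

/-!
The combination theorem, second version.
-/

namespace Pool.Agent.CW

open Pool.Agent.VN Pool.Agent.LFT Pool.Agent.HI Pool.Agent.HC

variable {k : Subring ℂ}

/-- the class `HierA` -/
theorem pw_of_hierA {Q : Type} [inst : Group Q] (h : HierA Q) : PW k Q := by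
  induction h with
  | triv Q => exact pw_triv Q
  | tree Q V T hT hadj hinv _ ih => exact pw_tree T hT hadj hinv ih
  | amen Q Y hY _ ih => exact pw_amen (amSet_of_amenable hY) ih
  | loc Q _ ih => exact pw_local k Q ih

/-- pairs with a normal subgroup -/
theorem key_hierA {A : Type} [Group A] (C N : Subgroup A) [N.Normal] (hNC : N ≤ C)
    (hA : AtiyahOver k A) (h : HierA (A ⧸ N)) : KeyP k A C := by
  refine pw_of_hierA (k := k) h A (QuotientGroup.mk' N) hA (A ⧸ C) ?_
  intro a ha x
  obtain ⟨g, rfl⟩ := QuotientGroup.mk_surjective x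
  rw [MulAction.Quotient.smul_coe, smul_eq_mul, eq_comm, QuotientGroup.eq]
  apply hNC
  have h1 : g⁻¹ * (a * g) = g⁻¹ * a * g⁻¹⁻¹ := by group
  rw [h1]
  have h2 := (QuotientGroup.eq_one_iff a).1 ha
  exact Subgroup.Normal.conj_mem inferInstance a h2 g⁻¹

theorem key_of_nice {A : Type} [inst : Group A] {C : Subgroup A} (h : Nice k A C)
    (hA : AtiyahOver k A) : KeyP k A C := by
  induction h with
  | top A => exact key_top A
  | one A h =>
    subst h
    exact key_one
  | hier A C N hNC h => exact key_hierA C N hNC hA h
  | amen A Y C hY _ ih =>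
    refine keyG_amset hA (amSet_of_amenable hY) fun y => ?_
    exact keyG_sub_pairs (MulAction.stabilizer A y) C fun a =>
      ih y a (AtiyahOver.of_injective hA (MulAction.stabilizer A y).subtype Subtype.val_injective)
  | trans A B C hCB h1 h2 ih1 ih2 =>
    exact key_trans hCB (ih1 hA)
      (ih2 (AtiyahOver.of_injective hA B.subtype Subtype.val_injective))

/-- the combination theorem -/
theorem combination (k : Subring ℂ) (G V : Type) [Group G] [MulAction G V] (T : SimpleGraph V)
    (hT : T.IsTree) (hadj : ∀ (g : G) (u v : V), T.Adj u v → T.Adj (g • u) (g • v))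
    (hinv : ∀ (g : G) (u v : V), T.Adj u v → ¬ (g • u = v ∧ g • v = u))
    (hA : ∀ v : V, AtiyahOver k (MulAction.stabilizer G v))
    (hN : ∀ u v : V, T.Adj u v → Nice k (MulAction.stabilizer G u)
      ((MulAction.stabilizer G v).subgroupOf (MulAction.stabilizer G u))) : AtiyahOver k G :=
  atiyah_comb k T hT hadj hinv hA fun u v huv => key_of_nice (hN u v huv) (hA u)

end Pool.Agent.CW
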