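import Pool.Agent.HC.CoAm

set_option autoImplicit false
set_option linter.unusedSectionVars false

noncomputable section

open scoped InnerProductSpace ENNReal Topology
open Classical Filter ContinuousLinearMap

/-!
The key estimate from the inequality for one rational subspace.
-/

namespace Pool.Agent.CW

open Pool.Agent.VN Pool.Agent.LFT Pool.Agent.HI Pool.Agent.HC

/-- the summation -/
lemma hn_sum {n u ε : ℝ} {N : ℕ} (hN : 0 < N) (hn : n < ε * N) (hu : 0 ≤ u) {a b c f : ℕ → ℝ}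
    (hb : ∀ i, 0 ≤ b i) (hb0 : b 0 ≤ n) (haN : a N ≤ b N) (hcN : c N = f N)
    (ha : ∀ i < N, a i - ((i + 1 : ℕ) : ℝ) / N * b i ≤
      a (i + 1) - ((i + 1 : ℕ) : ℝ) / N * b (i + 1))
    (hc : ∀ i < N, c (i + 1) - (i : ℝ) / N * f (i + 1) ≤ c i - (i : ℝ) / N * f i)
    (h : ∀ i, b i - u * f i < a 0 - u * c 0 - ε) : False := by
  have hN' : (0 : ℝ) < N := by exact_mod_cast hN
  have h1 : ∀ j ≤ N, a 0 ≤ a j - (j : ℝ) / N * b j + (1 / N : ℝ) * ∑ i ∈ Finset.range j, b i := by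
    intro j hj
    induction j with
    | zero => simp
    | succ j ih =>
      have h2 := ih (by omega)
      have h3 := ha j (by omega)
      rw [Finset.sum_range_succ]
      have h4 : ((j + 1 : ℕ) : ℝ) / N * b j = (j : ℝ) / N * b j + (1 / N : ℝ) * b j := by
        push_cast
        ring
      rw [mul_add]
      linarith
  have h2 : ∀ j ≤ N, c j - (j : ℝ) / N * f j + (1 / N : ℝ) * ∑ i ∈ Finset.range j, f (i + 1) ≤
      c 0 := by
    intro j hj
    induction j with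
    | zero => simp
    | succ j ih =>
      have h2 := ih (by omega)
      have h3 := hc j (by omega)
      rw [Finset.sum_range_succ]
      have h4 : ((j + 1 : ℕ) : ℝ) / N * f (j + 1) =
          (j : ℝ) / N * f (j + 1) + (1 / N : ℝ) * f (j + 1) := by
        push_cast
        ring
      rw [mul_add]
      linarith
  have h3 := h1 N le_rfl
  have h4 := h2 N le_rfl
  rw [div_self hN'.ne', one_mul] at h3 h4
  have h5 : ∑ i ∈ Finset.range N, b i + b N = ∑ i ∈ Finset.range N, b (i + 1) + b 0 := by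
    rw [← Finset.sum_range_succ, Finset.sum_range_succ']
  have h6 : ∑ i ∈ Finset.range N, (b (i + 1) - u * f (i + 1)) ≤
      ∑ i ∈ Finset.range N, (a 0 - u * c 0 - ε) := Finset.sum_le_sum fun i _ => (h (i + 1)).le
  rw [Finset.sum_sub_distrib, ← Finset.mul_sum, Finset.sum_const, Finset.card_range,
    nsmul_eq_mul] at h6
  have h7 : a 0 ≤ (1 / N : ℝ) * ∑ i ∈ Finset.range N, b i := by linarith
  have h8 : (1 / N : ℝ) * ∑ i ∈ Finset.range N, f (i + 1) ≤ c 0 := by linarith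
  have h9 : (N : ℝ) * a 0 ≤ ∑ i ∈ Finset.range N, b i := by
    have := mul_le_mul_of_nonneg_left h7 hN'.le
    rwa [← mul_assoc, mul_one_div_cancel hN'.ne', one_mul] at this
  have h10 : ∑ i ∈ Finset.range N, f (i + 1) ≤ (N : ℝ) * c 0 := by
    have := mul_le_mul_of_nonneg_left h8 hN'.le
    rwa [← mul_assoc, mul_one_div_cancel hN'.ne', one_mul] at this
  have h11 : u * ∑ i ∈ Finset.range N, f (i + 1) ≤ u * ((N : ℝ) * c 0) :=
    mul_le_mul_of_nonneg_left h10 hu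
  have h12 := hb N
  have h13 : (N : ℝ) * (a 0 - u * c 0 - ε) = N * a 0 - u * (N * c 0) - ε * N := by ring
  linarith

section Loc

variable {A W ι : Type} [Group A] {p : ι × A → W} {P Q : Submodule ℂ (L2 ι A)}

lemma loc_inf (hP : Loc p P) (hQ : Loc p Q) : Loc p (P ⊓ Q) :=
  fun x hx w => ⟨hP x hx.1 w, hQ x hx.2 w⟩

lemma loc_csup (hP : Loc p P) (hQ : Loc p Q) : Loc p (csup P Q) := by
  intro x hx w
  have h2 : Set.MapsTo (cutF p w : L2 ι A → L2 ι A) ((P ⊔ Q : Submodule ℂ (L2 ι A)) : Set (L2 ι A))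
      ((P ⊔ Q : Submodule ℂ (L2 ι A)) : Set (L2 ι A)) := by
    intro y hy
    obtain ⟨a, ha, b, hb, rfl⟩ := Submodule.mem_sup.1 hy
    rw [map_add]
    exact Submodule.add_mem_sup (hP a ha w) (hQ b hb w)
  exact h2.closure (cutF p w).continuous hx

end Loc

section HN

variable {k : Subring ℂ} {A X : Type} [Group A] [MulAction A X]

/-- the inequality for one rational subspace -/
def One (k : Subring ℂ) (A X : Type) [Group A] [MulAction A X] : Prop :=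
  ∀ (ι : Type) (_ : Fintype ι) (d : ι → X) (P U : Submodule ℂ (L2 ι A)), CI P → Loc (pV d) P →
    Rat k (fun _ : ι => ()) U → ∀ w : ℝ, 0 ≤ w → w ≤ 1 → ∀ ε : ℝ, 0 < ε →
    ∃ S, Rat k d S ∧ dm (P ⊓ U) - w * dm P - ε ≤ dm (U ⊓ S) - w * dm S

/-- maximisers -/
def Mx (k : Subring ℂ) {ι : Type} [Fintype ι] (d : ι → X) (U : Submodule ℂ (L2 ι A)) (w : ℝ)
    (F : Submodule ℂ (L2 ι A)) : Prop :=
  Rat k d F ∧ ∀ S, Rat k d S → dm (U ⊓ S) - w * dm S ≤ dm (U ⊓ F) - w * dm F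

lemma exists_mx (hA : AtiyahOver k A) {ι : Type} [Fintype ι] (d : ι → X)
    {U : Submodule ℂ (L2 ι A)} (hU : Rat k (fun _ : ι => ()) U) (w : ℝ) :
    ∃ F, Mx k d U w F := by
  have hint : ∀ (Y : Submodule ℂ (L2 ι A)), Rat k (fun _ : ι => ()) Y →
      ∃ z : ℕ, z ≤ Fintype.card ι ∧ dm Y = z := by
    intro Y hY
    obtain ⟨z, hz⟩ := Rat.int (fun m => AtiyahOver.of_injective hA (Subgroup.subtype _)
      Subtype.val_injective) hY
    have h0 := dm_nonneg Y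
    have h1 := dm_le_card Y
    rw [hz] at h0 h1
    have h2 : 0 ≤ z := by exact_mod_cast h0
    lift z to ℕ using h2
    refine ⟨z, ?_, ?_⟩
    · exact_mod_cast h1
    · rw [hz]
      simp
  set Z : Finset (ℕ × ℕ) := (Finset.range (Fintype.card ι + 1) ×ˢ
    Finset.range (Fintype.card ι + 1)).filter fun p =>
      ∃ S, Rat k d S ∧ dm (U ⊓ S) = (p.1 : ℝ) ∧ dm S = (p.2 : ℝ) with hZ
  have hmem : ∀ S, Rat k d S → ∃ p ∈ Z, dm (U ⊓ S) = ((p : ℕ × ℕ).1 : ℝ) ∧ dm S = (p.2 : ℝ) := by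
    intro S hS
    have hS' : Rat k (fun _ : ι => ()) S := hS.mapLab (fun _ => ()) fun _ _ => rfl
    obtain ⟨z1, h1, e1⟩ := hint _ (hU.inf hS')
    obtain ⟨z2, h2, e2⟩ := hint _ hS'
    refine ⟨(z1, z2), ?_, e1, e2⟩
    rw [hZ, Finset.mem_filter, Finset.mem_product, Finset.mem_range, Finset.mem_range]
    exact ⟨⟨by omega, by omega⟩, S, hS, e1, e2⟩
  obtain ⟨p0, hp0, -⟩ := hmem ⊥ (Rat.bot d)
  obtain ⟨p, hp, hmax⟩ := Z.exists_max_image (fun p => (p.1 : ℝ) - w * (p.2 : ℝ)) ⟨p0, hp0⟩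
  obtain ⟨F, hF, e1, e2⟩ := (Finset.mem_filter.1 hp).2
  refine ⟨F, hF, fun S hS => ?_⟩
  obtain ⟨q, hq, e3, e4⟩ := hmem S hS
  rw [e1, e2, e3, e4]
  exact hmax q hq

/-- supermodularity -/
lemma sup_ineq {ι : Type} [Fintype ι] {U F P : Submodule ℂ (L2 ι A)} (hU : CI U) (hF : CI F)
    (hP : CI P) (w w' : ℝ) (hw : w ≤ w') :
    dm (U ⊓ P) - w' * dm P + (dm (U ⊓ F) - w * dm F) ≤
      dm (U ⊓ (P ⊓ F)) - w' * dm (P ⊓ F) + (dm (U ⊓ csup P F) - w * dm (csup P F)) := by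
  have h1 := dm_inf_csup hU hP hF
  have h2 := dm_csup hP hF
  have h3 : dm (P ⊓ F) ≤ dm P := dm_mono inf_le_left
  have h4 : dm (csup P F) = dm P + dm F - dm (P ⊓ F) := by linarith
  rw [h4]
  nlinarith

lemma mx_step (hA : AtiyahOver k A) {ι : Type} [Fintype ι] (d : ι → X)
    {U : Submodule ℂ (L2 ι A)} (hU : Rat k (fun _ : ι => ()) U) {w w' : ℝ} (hw : w ≤ w')
    {F : Submodule ℂ (L2 ι A)} (hF : Mx k d U w F) : ∃ F', Mx k d U w' F' ∧ F' ≤ F := by
  obtain ⟨F1, h1⟩ := exists_mx (k := k) hA d hU w'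
  refine ⟨F1 ⊓ F, ⟨h1.1.inf hF.1, fun S hS => ?_⟩, inf_le_right⟩
  have h2 := sup_ineq hU.ci hF.1.ci h1.1.ci w w' hw
  have h3 := hF.2 _ (h1.1.csup hF.1)
  have h4 := h1.2 S hS
  linarith

/-- the chain of maximisers -/
lemma mx_chain (hA : AtiyahOver k A) {ι : Type} [Fintype ι] (d : ι → X)
    {U : Submodule ℂ (L2 ι A)} (hU : Rat k (fun _ : ι => ()) U) {N : ℕ} (hN : 0 < N) :
    ∃ F : ℕ → Submodule ℂ (L2 ι A), F 0 = ⊤ ∧ (∀ i : ℕ, Mx k d U ((i : ℝ) / N) (F i)) ∧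
      ∀ i, F (i + 1) ≤ F i := by
  have h0 : Mx k d U (((0 : ℕ) : ℝ) / N) (⊤ : Submodule ℂ (L2 ι A)) := by
    refine ⟨Rat.top d, fun S hS => ?_⟩
    rw [Nat.cast_zero, zero_div, zero_mul, zero_mul, sub_zero, sub_zero]
    exact dm_mono (inf_le_inf_left _ le_top)
  have hs : ∀ (i : ℕ) (F : {F // Mx k d U ((i : ℝ) / N) F}),
      ∃ F' : {F // Mx k d U (((i + 1 : ℕ) : ℝ) / N) F}, F'.1 ≤ F.1 := by
    rintro i ⟨F, hF⟩
    obtain ⟨F', h1, h2⟩ := mx_step (k := k) hA d hU (w' := ((i + 1 : ℕ) : ℝ) / N) (by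
      have : (0 : ℝ) < N := by exact_mod_cast hN
      push_cast
      gcongr
      linarith) hF
    exact ⟨⟨F', h1⟩, h2⟩
  choose g hg using hs
  let F : (i : ℕ) → {F // Mx k d U ((i : ℝ) / N) F} := fun i =>
    Nat.rec (motive := fun i => {F // Mx k d U ((i : ℝ) / N) F}) ⟨⊤, h0⟩ (fun i F => g i F) i
  exact ⟨fun i => (F i).1, rfl, fun i => (F i).2, fun i => hg i (F i)⟩

/-- the key estimate from the inequality for one rational subspace -/
theorem key_of_one (hA : AtiyahOver k A) (h : One k A X) : KeyG k A X := by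
  intro ι _ d P hP hl u Y hY ε hε
  by_cases hu : u < 0
  · refine ⟨⊤, Rat.top d, ?_⟩
    have h1 : dm (P ⊓ Y) ≤ dm (P ⊓ ⊤) := dm_mono (inf_le_inf_left _ le_top)
    have h2 : dm Y ≤ dm (⊤ : Submodule ℂ (L2 ι A)) := dm_mono le_top
    nlinarith
  push Not at hu
  obtain ⟨N, hN⟩ := exists_nat_gt (((Fintype.card ι : ℕ) : ℝ) / ε)
  have hn : ((Fintype.card ι : ℕ) : ℝ) < ε * N := by
    rw [div_lt_iff₀ hε] at hN
    linarith
  have hN0 : 0 < N := by
    rcases Nat.eq_zero_or_pos N with h0 | h0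
    · subst h0
      rw [Nat.cast_zero, mul_zero] at hn
      have : (0 : ℝ) ≤ ((Fintype.card ι : ℕ) : ℝ) := Nat.cast_nonneg _
      linarith
    · exact h0
  have hN' : (0 : ℝ) < N := by exact_mod_cast hN0
  obtain ⟨F, hF0, hF, hFd⟩ := mx_chain (k := k) hA d hY hN0
  by_contra hcon
  push Not at hcon
  -- the inequality for all local subspaces
  have hstar : ∀ i ≤ N, ∀ P' : Submodule ℂ (L2 ι A), CI P' → Loc (pV d) P' →
      dm (Y ⊓ P') - (i : ℝ) / N * dm P' ≤ dm (Y ⊓ F i) - (i : ℝ) / N * dm (F i) := by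
    intro i hi P' hP' hl'
    refine le_of_forall_pos_le_add fun η hη => ?_
    obtain ⟨S, hS, hSe⟩ := h ι inferInstance d P' Y hP' hl' hY ((i : ℝ) / N) (by positivity)
      (by rw [div_le_one hN']; exact_mod_cast hi) η hη
    have h1 := (hF i).2 S hS
    rw [inf_comm Y P']
    linarith
  have hpr : ∀ i ≤ N, ∀ P' : Submodule ℂ (L2 ι A), CI P' → Loc (pV d) P' →
      dm (Y ⊓ P') - (i : ℝ) / N * dm P' ≤ dm (Y ⊓ (P' ⊓ F i)) - (i : ℝ) / N * dm (P' ⊓ F i) := by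
    intro i hi P' hP' hl'
    have h1 := sup_ineq hY.ci (hF i).1.ci hP' ((i : ℝ) / N) ((i : ℝ) / N) le_rfl
    have h2 := hstar i hi (csup P' (F i)) (CI.csup hP'.inv (hF i).1.ci.inv)
      (loc_csup hl' (hF i).1.loc)
    linarith
  have hloc : ∀ i, Loc (pV d) (P ⊓ F i) := fun i => loc_inf hl (hF i).1.loc
  refine hn_sum (n := ((Fintype.card ι : ℕ) : ℝ)) (u := u) (ε := ε) hN0 hn hu
    (a := fun i => dm (Y ⊓ (P ⊓ F i))) (b := fun i => dm (P ⊓ F i)) (c := fun i => dm (Y ⊓ F i))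
    (f := fun i => dm (F i)) (fun i => dm_nonneg _) (dm_le_card _) (dm_mono inf_le_right) ?_ ?_ ?_ ?_
  · have h1 := (hF N).2 ⊥ (Rat.bot d)
    rw [inf_bot_eq, dm_bot, mul_zero, sub_zero, div_self hN'.ne', one_mul] at h1
    have h2 : dm (Y ⊓ F N) ≤ dm (F N) := dm_mono inf_le_right
    linarith
  · intro i hi
    have h1 := hpr (i + 1) (by omega) (P ⊓ F i) (hP.inf (hF i).1.ci) (hloc i)
    have h2 : P ⊓ F i ⊓ F (i + 1) = P ⊓ F (i + 1) := by
      rw [inf_assoc, inf_eq_right.2 (hFd i)]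
    rw [h2] at h1
    exact h1
  · intro i hi
    exact (hF i).2 _ (hF (i + 1)).1
  · intro i
    have h1 := hcon (F i) (hF i).1
    have h2 : dm (Y ⊓ (P ⊓ F 0)) = dm (P ⊓ Y) := by
      rw [hF0, inf_top_eq, inf_comm]
    have h3 : dm (Y ⊓ F 0) = dm Y := by
      rw [hF0, inf_top_eq]
    rw [h2, h3]
    exact h1

end HN

end Pool.Agent.CW
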