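import Pool.Agent.HC.NiceDef

set_option autoImplicit false

namespace Pool.Agent.CW

open Pool.Agent.HC (AmenableAction)

/-- The smallest class of groups which contains the trivial groups and is closed under
* actions on trees without inversions (all vertex stabilisers belong to the class),
* amenable actions on sets (all point stabilisers belong to the class),
* the local step: a group belongs to the class if all its finitely generated subgroups without
  nontrivial homomorphisms to the integers belong to it.

It contains the amenable groups (they act amenably on themselves), it is closed under subgroups,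
under extensions with amenable quotients (`G` acts amenably on the quotient `Q`, all stabilisers are
the kernel), under finite extensions (`G` acts on the finite set `G/H`) and under directed unions
(`G` acts amenably on the union of the sets `G/H`): see `Pool.Agent.CW.HierA`. -/
inductive HierA : (G : Type) → [Group G] → Prop
  | triv (G : Type) [Group G] [Subsingleton G] : HierA G
  | tree (G V : Type) [Group G] [MulAction G V] (T : SimpleGraph V) (hT : T.IsTree)
      (hadj : ∀ (g : G) (u v : V), T.Adj u v → T.Adj (g • u) (g • v))
      (hinv : ∀ (g : G) (u v : V), T.Adj u v → ¬ (g • u = v ∧ g • v = u))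
      (h : ∀ v : V, HierA (MulAction.stabilizer G v)) : HierA G
  | amen (G Y : Type) [Group G] [MulAction G Y] (hY : AmenableAction G Y)
      (h : ∀ y : Y, HierA (MulAction.stabilizer G y)) : HierA G
  | loc (G : Type) [Group G]
      (h : ∀ H : Subgroup G, H.FG → (∀ f : H →* Multiplicative ℤ, f = 1) → HierA H) : HierA G

/-- The pairs (group, subgroup) of vertices and edges which are allowed in the combination theorem:
the smallest class such that `(A, C)` belongs to the class
* if `C = A`,
* if `k = ℂ` and `C = 1`,
* if `C` contains a normal subgroup `N` of `A` such that `A/N` is in the class `HierA`,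
* if `A` acts amenably on a set such that all pairs `(A_y, A_y ∩ a C a⁻¹)`, `y` a point, `a ∈ A`,
  belong to the class,
* if `C ≤ B ≤ A` and `(A, B)`, `(B, C)` belong to the class. -/
inductive Nice (k : Subring ℂ) : (A : Type) → [Group A] → Subgroup A → Prop
  | top (A : Type) [Group A] : Nice k A ⊤
  | one (A : Type) [Group A] (hk : k = ⊤) : Nice k A ⊥
  | hier (A : Type) [Group A] (C N : Subgroup A) [N.Normal] (hNC : N ≤ C)
      (h : HierA (A ⧸ N)) : Nice k A C
  | amen (A Y : Type) [Group A] [MulAction A Y] (C : Subgroup A) (hY : AmenableAction A Y)
      (h : ∀ (y : Y) (a : A), Nice k (MulAction.stabilizer A y)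
        ((C.map (MulAut.conj a).toMonoidHom).subgroupOf (MulAction.stabilizer A y))) : Nice k A C
  | trans (A : Type) [Group A] (B C : Subgroup A) (hCB : C ≤ B) (h1 : Nice k A B)
      (h2 : Nice k B (C.subgroupOf B)) : Nice k A C

end Pool.Agent.CW
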