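import Pool.Agent.CW.Lat
import Pool.Agent.AH.RealP
import Pool.Agent.HI.H2

set_option autoImplicit false
set_option linter.unusedSectionVars false

noncomputable section

open scoped InnerProductSpace ENNReal Topology Matrix
open Classical Filter ContinuousLinearMap

/-!
From real subspaces to all subspaces.
-/

namespace Pool.Agent.CW

open Pool.Agent.VN Pool.Agent.LFT Pool.Agent.AH Pool.Agent.HI

section Conj

variable {α : Type}

/-- the complex conjugate of a subspace -/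
def cjS (P : Submodule ℂ (Ell α)) : Submodule ℂ (Ell α) where
  carrier := {x | cj x ∈ P}
  add_mem' := by
    intro x y hx hy
    show cj (x + y) ∈ P
    rw [cj_add]
    exact P.add_mem hx hy
  zero_mem' := by
    show cj 0 ∈ P
    rw [cj_zero]
    exact P.zero_mem
  smul_mem' := by
    intro c x hx
    show cj (c • x) ∈ P
    rw [cj_smul]
    exact P.smul_mem _ hx

lemma mem_cjS (P : Submodule ℂ (Ell α)) (x : Ell α) : x ∈ cjS P ↔ cj x ∈ P := Iff.rfl

lemma cjS_inf (P Q : Submodule ℂ (Ell α)) : cjS (P ⊓ Q) = cjS P ⊓ cjS Q := rfl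

lemma cjS_real {P : Submodule ℂ (Ell α)} (hP : Realv P) : cjS P = P := by
  apply le_antisymm
  · intro x hx
    have := hP _ hx
    rwa [cj_cj] at this
  · exact fun x hx => hP x hx

end Conj

section Op

variable {G ι D : Type} [Fintype ι] [Group G] [MulAction G D]

lemma cj_lt (s : G) (x : L2 ι G) : cj (lt s x) = lt s (cj x) := by
  ext p
  rw [cj_apply, lt_apply, lt_apply, cj_apply]

lemma cjS_ci {P : Submodule ℂ (L2 ι G)} (hP : CI P) : CI (cjS P) := by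
  refine ⟨hP.cl.preimage cj_continuous, fun s x hx => ?_⟩
  rw [mem_cjS, cj_lt]
  exact hP.inv s _ hx

lemma cjS_loc {d : ι → D} {P : Submodule ℂ (L2 ι G)} (hP : Loc (pV d) P) :
    Loc (pV d) (cjS P) := by
  intro x hx w
  rw [mem_cjS, cj_cutF]
  exact hP _ hx w

lemma cj_dl (p : ι × G) : cj (dl p : L2 ι G) = dl p := by
  ext q
  rw [cj_apply, dl_apply]
  split_ifs <;> simp

lemma dm_cjS (P : Submodule ℂ (L2 ι G)) : dm (cjS P) = dm P := by
  unfold dm vdim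
  refine Finset.sum_congr rfl fun i _ => ?_
  have h1 : ((cjS P : Submodule ℂ (L2 ι G)) : Set (L2 ι G)) = cj '' (P : Set (L2 ι G)) := by
    ext x
    constructor
    · intro hx
      exact ⟨cj x, hx, cj_cj x⟩
    · rintro ⟨y, hy, rfl⟩
      show cj (cj y) ∈ P
      rw [cj_cj]
      exact hy
  have h2 : Isometry (cj : L2 ι G → L2 ι G) := Isometry.of_dist_eq fun x y => by
    rw [dist_eq_norm, dist_eq_norm, ← cj_sub, norm_cj]
  rw [h1]
  have h3 := Metric.infDist_image (x := (dl (i, (1 : G)) : L2 ι G)) (t := (P : Set (L2 ι G))) h2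
  rw [cj_dl] at h3
  rw [h3]

/-- `(a, b) ↦ a + i b` -/
def opP : L2 (ι ⊕ ι) G →L[ℂ] L2 ι G := prL + Complex.I • prR

/-- `(a, b) ↦ a - i b` -/
def opM : L2 (ι ⊕ ι) G →L[ℂ] L2 ι G := prL - Complex.I • prR

lemma opP_apply (z : L2 (ι ⊕ ι) G) : opP z = prL z + Complex.I • prR z := rfl

lemma opM_apply (z : L2 (ι ⊕ ι) G) : opM z = prL z - Complex.I • prR z := rfl

lemma cj_prL (z : L2 (ι ⊕ ι) G) : cj (prL z : L2 ι G) = prL (cj z) := by
  ext ⟨i, g⟩
  rw [cj_apply, prL_apply, prL_apply, cj_apply]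

lemma cj_prR (z : L2 (ι ⊕ ι) G) : cj (prR z : L2 ι G) = prR (cj z) := by
  ext ⟨i, g⟩
  rw [cj_apply, prR_apply, prR_apply, cj_apply]

lemma cj_opP (z : L2 (ι ⊕ ι) G) : cj (opP z : L2 ι G) = opM (cj z) := by
  rw [opP_apply, opM_apply, cj_add, cj_smul, cj_prL, cj_prR]
  have h : star Complex.I = -Complex.I := Complex.conj_I
  rw [h, neg_smul, sub_eq_add_neg]

lemma cj_opM (z : L2 (ι ⊕ ι) G) : cj (opM z : L2 ι G) = opP (cj z) := by
  rw [opP_apply, opM_apply, cj_sub, cj_smul, cj_prL, cj_prR]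
  have h : star Complex.I = -Complex.I := Complex.conj_I
  rw [h, neg_smul, sub_neg_eq_add]

lemma opP_equivar : Equivar (opP : L2 (ι ⊕ ι) G →L[ℂ] L2 ι G) :=
  LF1_equivar_prL.add (Equivar.smul _ LF1_equivar_prR)

lemma opM_equivar : Equivar (opM : L2 (ι ⊕ ι) G →L[ℂ] L2 ι G) :=
  LF1_equivar_prL.sub (Equivar.smul _ LF1_equivar_prR)

/-- the double of a subspace -/
def dbl (X X' : Submodule ℂ (L2 ι G)) : Submodule ℂ (L2 (ι ⊕ ι) G) :=
  X.comap (opP : L2 (ι ⊕ ι) G →L[ℂ] L2 ι G).toLinearMap ⊓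
    X'.comap (opM : L2 (ι ⊕ ι) G →L[ℂ] L2 ι G).toLinearMap

lemma mem_dbl (X X' : Submodule ℂ (L2 ι G)) (z : L2 (ι ⊕ ι) G) :
    z ∈ dbl X X' ↔ opP z ∈ X ∧ opM z ∈ X' := Iff.rfl

lemma lift1 (x : L2 ι G) :
    opP (inL (κ' := ι) ((1 / 2 : ℂ) • x) + inR (κ := ι) ((-Complex.I / 2) • x)) = x ∧
    opM (inL (κ' := ι) ((1 / 2 : ℂ) • x) + inR (κ := ι) ((-Complex.I / 2) • x)) = 0 := by
  rw [opP_apply, opM_apply, map_add, map_add, prL_inL, prL_inR, prR_inL, prR_inR, add_zero,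
    zero_add, smul_smul, ← add_smul, ← sub_smul]
  have h1 : (1 / 2 : ℂ) + Complex.I * (-Complex.I / 2) = 1 := by
    have := Complex.I_mul_I
    linear_combination (-1 / 2 : ℂ) * this
  have h2 : (1 / 2 : ℂ) - Complex.I * (-Complex.I / 2) = 0 := by
    have := Complex.I_mul_I
    linear_combination (1 / 2 : ℂ) * this
  rw [h1, h2, one_smul, zero_smul]
  exact ⟨rfl, rfl⟩

lemma lift2 (x : L2 ι G) :
    opP (inL (κ' := ι) ((1 / 2 : ℂ) • x) + inR (κ := ι) ((Complex.I / 2) • x)) = 0 ∧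
    opM (inL (κ' := ι) ((1 / 2 : ℂ) • x) + inR (κ := ι) ((Complex.I / 2) • x)) = x := by
  rw [opP_apply, opM_apply, map_add, map_add, prL_inL, prL_inR, prR_inL, prR_inR, add_zero,
    zero_add, smul_smul, ← add_smul, ← sub_smul]
  have h1 : (1 / 2 : ℂ) + Complex.I * (Complex.I / 2) = 0 := by
    have := Complex.I_mul_I
    linear_combination (1 / 2 : ℂ) * this
  have h2 : (1 / 2 : ℂ) - Complex.I * (Complex.I / 2) = 1 := by
    have := Complex.I_mul_I
    linear_combination (-1 / 2 : ℂ) * this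
  rw [h1, h2, one_smul, zero_smul]
  exact ⟨rfl, rfl⟩

lemma dbl_ci {X X' : Submodule ℂ (L2 ι G)} (hX : CI X) (hX' : CI X') :
    CI (dbl X X') :=
  (CI.comap opP_equivar hX).inf (CI.comap opM_equivar hX')

lemma dm_dbl {X X' : Submodule ℂ (L2 ι G)} (hX : CI X) (hX' : CI X') :
    dm (dbl X X') = dm X + dm X' := by
  have h1 := dm_comap opP_equivar (CI.comap opM_equivar hX') hX
  have h2 := dm_comap opM_equivar (CI.kr (opP_equivar (G := G) (ι := ι))) hX'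
  have e1 : imc (opP : L2 (ι ⊕ ι) G →L[ℂ] L2 ι G)
      (X'.comap (opM : L2 (ι ⊕ ι) G →L[ℂ] L2 ι G).toLinearMap) = ⊤ := by
    rw [eq_top_iff]
    intro x _
    have h3 := mem_imc (opP : L2 (ι ⊕ ι) G →L[ℂ] L2 ι G)
      (X := X'.comap (opM : L2 (ι ⊕ ι) G →L[ℂ] L2 ι G).toLinearMap)
      (x := inL (κ' := ι) ((1 / 2 : ℂ) • x) + inR (κ := ι) ((-Complex.I / 2) • x)) (by
        show opM _ ∈ X'
        rw [(lift1 x).2]
        exact X'.zero_mem)
    rwa [(lift1 x).1] at h3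
  have e2 : imc (opM : L2 (ι ⊕ ι) G →L[ℂ] L2 ι G) (kr opP) = ⊤ := by
    rw [eq_top_iff]
    intro x _
    have h3 := mem_imc (opM : L2 (ι ⊕ ι) G →L[ℂ] L2 ι G) (X := kr opP)
      (x := inL (κ' := ι) ((1 / 2 : ℂ) • x) + inR (κ := ι) ((Complex.I / 2) • x)) (by
        rw [mem_kr]
        exact (lift2 x).1)
    rwa [(lift2 x).2] at h3
  have e3 : kr (opP : L2 (ι ⊕ ι) G →L[ℂ] L2 ι G) ⊓ kr (opM : L2 (ι ⊕ ι) G →L[ℂ] L2 ι G) = ⊥ := by
    rw [eq_bot_iff]
    rintro z ⟨hz1, hz2⟩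
    have hz1 : prL z + Complex.I • prR z = (0 : L2 ι G) := hz1
    have hz2 : prL z - Complex.I • prR z = (0 : L2 ι G) := hz2
    have h3 : (2 : ℂ) • (prL z : L2 ι G) = 0 := by
      have := congrArg₂ (· + ·) hz1 hz2
      simp only [add_zero] at this
      rw [two_smul]
      rw [← this]
      abel
    have h4 : (2 * Complex.I : ℂ) • (prR z : L2 ι G) = 0 := by
      have := congrArg₂ (· - ·) hz1 hz2
      simp only [sub_zero] at this
      rw [mul_smul, two_smul]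
      rw [← this]
      abel
    have h5 : (prL z : L2 ι G) = 0 := (smul_eq_zero.1 h3).resolve_left two_ne_zero
    have h6 : (prR z : L2 ι G) = 0 := (smul_eq_zero.1 h4).resolve_left
      (mul_ne_zero two_ne_zero Complex.I_ne_zero)
    rw [Submodule.mem_bot, ← inL_prL_add z, h5, h6, map_zero, map_zero, add_zero]
  have e4 : dbl X X' = X'.comap (opM : L2 (ι ⊕ ι) G →L[ℂ] L2 ι G).toLinearMap ⊓
      X.comap (opP : L2 (ι ⊕ ι) G →L[ℂ] L2 ι G).toLinearMap := inf_comm _ _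
  have e5 : X'.comap (opM : L2 (ι ⊕ ι) G →L[ℂ] L2 ι G).toLinearMap ⊓
      kr (opP : L2 (ι ⊕ ι) G →L[ℂ] L2 ι G) = kr opP ⊓
        X'.comap (opM : L2 (ι ⊕ ι) G →L[ℂ] L2 ι G).toLinearMap := inf_comm _ _
  rw [e4, h1, e1, e5, h2, e2, e3, dm_bot, top_inf_eq, top_inf_eq]
  ring

lemma dbl_real (P : Submodule ℂ (L2 ι G)) : Realv (dbl P (cjS P)) := by
  rintro z ⟨hz1, hz2⟩
  have hz1 : opP z ∈ P := hz1
  have hz2 : cj (opM z) ∈ P := hz2
  refine ⟨?_, ?_⟩
  · show opP (cj z) ∈ P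
    rw [← cj_opM]
    exact hz2
  · show cj (opM (cj z)) ∈ P
    rw [← cj_opP, cj_cj]
    exact hz1

lemma prL_cutF (d : ι → D) (w : D) (z : L2 (ι ⊕ ι) G) :
    (prL (cutF (pV (Sum.elim d d)) w z) : L2 ι G) = cutF (pV d) w (prL z) := by
  ext ⟨i, g⟩
  rw [prL_apply, cutF_apply, cutF_apply, prL_apply]
  rfl

lemma prR_cutF (d : ι → D) (w : D) (z : L2 (ι ⊕ ι) G) :
    (prR (cutF (pV (Sum.elim d d)) w z) : L2 ι G) = cutF (pV d) w (prR z) := by
  ext ⟨i, g⟩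
  rw [prR_apply, cutF_apply, cutF_apply, prR_apply]
  rfl

lemma dbl_loc {d : ι → D} {X X' : Submodule ℂ (L2 ι G)} (hX : Loc (pV d) X)
    (hX' : Loc (pV d) X') : Loc (pV (Sum.elim d d)) (dbl X X') := by
  rintro z ⟨hz1, hz2⟩ w
  refine ⟨?_, ?_⟩
  · show opP _ ∈ X
    rw [opP_apply, prL_cutF, prR_cutF, ← map_smul, ← map_add]
    exact hX _ hz1 w
  · show opM _ ∈ X'
    rw [opM_apply, prL_cutF, prR_cutF, ← map_smul, ← map_sub]
    exact hX' _ hz2 w

lemma mem_of_both {U : Submodule ℂ (L2 ι G)} (z : L2 (ι ⊕ ι) G) :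
    z ∈ dbl U U ↔ prL z ∈ U ∧ prR z ∈ U := by
  rw [mem_dbl]
  constructor
  · rintro ⟨h1, h2⟩
    have e1 : (prL z : L2 ι G) = (1 / 2 : ℂ) • (opP z + opM z) := by
      rw [opP_apply, opM_apply]
      have : (prL z : L2 ι G) + Complex.I • prR z + (prL z - Complex.I • prR z)
        = (2 : ℂ) • prL z := by
        rw [two_smul]
        abel
      rw [this, smul_smul]
      norm_num
    have e2 : (prR z : L2 ι G) = (-Complex.I / 2) • (opP z - opM z) := by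
      rw [opP_apply, opM_apply]
      have : (prL z : L2 ι G) + Complex.I • prR z - (prL z - Complex.I • prR z)
        = (2 * Complex.I : ℂ) • prR z := by
        rw [mul_smul, two_smul]
        abel
      rw [this, smul_smul]
      have h3 : -Complex.I / 2 * (2 * Complex.I) = 1 := by
        have := Complex.I_mul_I
        linear_combination (-1 : ℂ) * this
      rw [h3, one_smul]
    refine ⟨?_, ?_⟩
    · rw [e1]
      exact U.smul_mem _ (U.add_mem h1 h2)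
    · rw [e2]
      exact U.smul_mem _ (U.sub_mem h1 h2)
  · rintro ⟨h1, h2⟩
    exact ⟨U.add_mem h1 (U.smul_mem _ h2), U.sub_mem h1 (U.smul_mem _ h2)⟩

lemma dbl_rat {k : Subring ℂ} {d : ι → D} {U : Submodule ℂ (L2 ι G)} (hU : Rat k d U) :
    Rat k (Sum.elim d d) (dbl U U) := by
  have h : dbl U U = U.comap (prL : L2 (ι ⊕ ι) G →L[ℂ] L2 ι G).toLinearMap ⊓
      U.comap (prR : L2 (ι ⊕ ι) G →L[ℂ] L2 ι G).toLinearMap := by
    ext z
    rw [mem_of_both]
    rfl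
  rw [h]
  exact (rat_comap (LocOp.prL _ _) hU).inf (rat_comap (LocOp.prR _ _) hU)

lemma dm_two {Y : Submodule ℂ (L2 (ι ⊕ ι) G)} (hY : CI Y) :
    dm Y = dm (Y.comap (inL : L2 ι G →L[ℂ] L2 (ι ⊕ ι) G).toLinearMap) +
      dm (imc (prR : L2 (ι ⊕ ι) G →L[ℂ] L2 ι G) Y) := by
  have hE : Equivar (inL : L2 ι G →L[ℂ] L2 (ι ⊕ ι) G) := mulR_equivar _
  have h1 := dm_imc LF1_equivar_prR hY
  have h2 := dm_imc hE (CI.comap hE hY)
  have hk : kr (inL : L2 ι G →L[ℂ] L2 (ι ⊕ ι) G) = ⊥ := by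
    rw [eq_bot_iff]
    intro y hy
    have hy' : inL (κ' := ι) y = 0 := hy
    rw [Submodule.mem_bot, ← prL_inL (κ' := ι) y, hy', map_zero]
  have he : imc (inL : L2 ι G →L[ℂ] L2 (ι ⊕ ι) G)
      (Y.comap (inL : L2 ι G →L[ℂ] L2 (ι ⊕ ι) G).toLinearMap) =
      Y ⊓ kr (prR : L2 (ι ⊕ ι) G →L[ℂ] L2 ι G) := by
    apply le_antisymm
    · apply imc_le (hY.inf (CI.kr LF1_equivar_prR)).cl
      intro x hx
      exact ⟨hx, prR_inL x⟩
    · rintro z ⟨hz1, hz2⟩
      have hz2 : (prR z : L2 ι G) = 0 := hz2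
      have hz3 : inL (prL z) = z := by
        have := inL_prL_add z
        rwa [hz2, map_zero, add_zero] at this
      have h3 := mem_imc (inL : L2 ι G →L[ℂ] L2 (ι ⊕ ι) G)
        (X := Y.comap (inL : L2 ι G →L[ℂ] L2 (ι ⊕ ι) G).toLinearMap) (x := prL z) (by
          show inL (prL z) ∈ Y
          rw [hz3]
          exact hz1)
      rwa [hz3] at h3
  rw [hk, inf_bot_eq, dm_bot, add_zero, he] at h2
  linarith

/-- the inequality for one rational subspace and an arbitrary local subspace -/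
theorem one_ineq' (hG : (sf G).NeBot) (d : ι → D)
    (hD : ∀ i, Amn (MulAction.stabilizer G (d i))) {P U : Submodule ℂ (L2 ι G)} (hP : CI P)
    (hl : Loc (pV d) P) (hU : Rat Qc (fun _ : ι => ()) U) {w ε : ℝ} (hw0 : 0 ≤ w)
    (hw1 : w ≤ 1) (hε : 0 < ε) :
    ∃ S, Rat Qc d S ∧ dm (P ⊓ U) - w * dm P - ε ≤ dm (U ⊓ S) - w * dm S := by
  have hUr : Realv U := realv_rat hU
  have hUU : Rat Qc (fun _ : ι ⊕ ι => ()) (dbl U U) := by
    have h1 := dbl_rat hU
    have h2 : (Sum.elim (fun _ : ι => ()) (fun _ : ι => ())) = fun _ : ι ⊕ ι => () :=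
      funext fun _ => rfl
    rwa [h2] at h1
  obtain ⟨S, hS, hSe⟩ := one_ineq hG (Sum.elim d d) (fun i => by
      rcases i with i | i
      · exact hD i
      · exact hD i)
    (dbl_ci hP (cjS_ci hP)) (dbl_loc hl (cjS_loc hl)) (dbl_real P) hUU hw0 hw1
    (show (0 : ℝ) < 2 * ε by linarith)
  have e1 : dbl P (cjS P) ⊓ dbl U U = dbl (P ⊓ U) (cjS (P ⊓ U)) := by
    rw [cjS_inf, cjS_real hUr]
    ext z
    simp only [Submodule.mem_inf, mem_dbl]
    tauto
  rw [e1, dm_dbl (hP.inf hU.ci) (cjS_ci (hP.inf hU.ci)), dm_cjS, dm_dbl hP (cjS_ci hP),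
    dm_cjS] at hSe
  -- the two pieces
  set S1 := S.comap (inL : L2 ι G →L[ℂ] L2 (ι ⊕ ι) G).toLinearMap with hS1
  set S2 := imc (prR : L2 (ι ⊕ ι) G →L[ℂ] L2 ι G) S with hS2
  have r1 : Rat Qc d S1 := rat_comap (LocOp.inL d d) hS
  have r2 : Rat Qc d S2 := Rat.imc (LocOp.prR d d) hS
  have d1 := dm_two hS.ci
  have d2 := dm_two (hUU.ci.inf hS.ci)
  have m1 : dm ((dbl U U ⊓ S).comap (inL : L2 ι G →L[ℂ] L2 (ι ⊕ ι) G).toLinearMap)
      ≤ dm (U ⊓ S1) := by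
    apply dm_mono
    rintro x ⟨hx1, hx2⟩
    have h3 := ((mem_of_both _).1 hx1).1
    have h4 : prL (inL (κ' := ι) x) = x := prL_inL x
    refine ⟨?_, hx2⟩
    rw [← h4]
    exact h3
  have m2 : dm (imc (prR : L2 (ι ⊕ ι) G →L[ℂ] L2 ι G) (dbl U U ⊓ S)) ≤ dm (U ⊓ S2) := by
    apply dm_mono
    apply imc_le (hU.ci.inf r2.ci).cl
    rintro x ⟨hx1, hx2⟩
    exact ⟨((mem_of_both _).1 hx1).2, mem_imc _ hx2⟩
  by_contra hcon
  push Not at hcon
  have c1 := hcon S1 r1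
  have c2 := hcon S2 r2
  nlinarith

end Op

end Pool.Agent.CW
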