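import Pool.Agent.CW.Real
import Pool.Agent.CW.HN
import Pool.Agent.AH.Final

set_option autoImplicit false
set_option linter.unusedSectionVars false

noncomputable section

open scoped InnerProductSpace ENNReal Topology
open Classical Filter ContinuousLinearMap

/-!
The key estimate for sofic groups and amenable subgroups.
-/

namespace Pool.Agent.CW

open Pool.Agent.VN Pool.Agent.LFT Pool.Agent.HI Pool.Agent.HC Pool.Agent.AH

/-- sofic groups acting on sets with amenable stabilisers -/
theorem keyG_sofic {A X : Type} [Group A] [MulAction A X] (hS : IsSofic A)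
    (hA : AtiyahOver Qc A) (hX : ∀ x : X, Amn (MulAction.stabilizer A x)) : KeyG Qc A X := by
  have := sf_neBot hS
  refine key_of_one hA ?_
  intro ι _ d P U hP hl hU w hw0 hw1 ε hε
  exact one_ineq' this d (fun i => hX (d i)) hP hl hU hw0 hw1 hε

/-- sofic groups and amenable subgroups -/
theorem key_sofic {A : Type} [Group A] {C : Subgroup A} (hS : IsSofic A)
    (hA : AtiyahOver Qc A) (hC : Amn C) : KeyP Qc A C := by
  refine keyG_sofic hS hA fun x => ?_
  obtain ⟨g, rfl⟩ := QuotientGroup.mk_surjective x
  have h1 : (QuotientGroup.mk g : A ⧸ C) = g • (QuotientGroup.mk (1 : A) : A ⧸ C) := by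
    rw [MulAction.Quotient.smul_coe, smul_eq_mul, mul_one]
  rw [h1, MulAction.stabilizer_smul_eq_stabilizer_map_conj]
  have h2 : MulAction.stabilizer A (QuotientGroup.mk (1 : A) : A ⧸ C) = C :=
    MulAction.stabilizer_quotient C
  rw [h2]
  exact Amn.of_equiv (Subgroup.equivMapOfInjective C _ (MulAut.conj g).injective) hC

end Pool.Agent.CW
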