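import Pool.Agent.HC.CoAm
import Pool.Agent.HC.Tree
import Pool.Agent.HI.Final

set_option autoImplicit false
set_option linter.unusedSectionVars false

noncomputable section

open scoped InnerProductSpace ENNReal Topology
open Classical Filter ContinuousLinearMap

/-!
Combination theorem, second version. The class of all groups `Q` such that the key estimates hold
for all groups over `Q` which satisfy the Atiyah conjecture, and trees.
-/

namespace Pool.Agent.CW

open Pool.Agent.VN Pool.Agent.LFT Pool.Agent.HI Pool.Agent.HC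

variable {k : Subring ℂ}

/-- the key estimates hold for all groups `A` with a homomorphism to `Q` which satisfy the Atiyah
conjecture over `k` and all `A`-sets on which the kernel acts trivially -/
def PW (k : Subring ℂ) (Q : Type) [Group Q] : Prop :=
  ∀ (A : Type) [Group A] (π : A →* Q), AtiyahOver k A → ∀ (X : Type) [MulAction A X],
    (∀ a : A, π a = 1 → ∀ x : X, a • x = x) → KeyG k A X

/-- integrality over a set implies the Atiyah conjecture for the stabilisers -/
theorem atiyah_stab {G V : Type} [Group G] [MulAction G V] (h : Int0 k G V) (v : V) :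
    AtiyahOver k (MulAction.stabilizer G v) := by
  intro m n A hA
  have h1 : Rat k (fun _ : Fin m => ()) (kr (mulR (colF A))) :=
    Rat.kr (lab' := fun _ : Fin n => ()) ⟨colF A, fun j p => colF_coef hA _ ⟨j, rfl⟩ p,
      fun _ _ _ => rfl, rfl⟩
  have h2 := rat_ind (M' := V) (MulAction.stabilizer G v).subtype Subtype.val_injective
    (fun _ : Unit => v) (fun γ _ => γ.2.symm) h1
  obtain ⟨z, hz⟩ := h _ inferInstance _ _ h2
  have h3 : dm (Ind (MulAction.stabilizer G v).subtype Subtype.val_injective
      (kr (mulR (colF A)))) = dm (kr (mulR (colF A))) :=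
    vdim_Ind _ _ (CI.kr (mulR_equivar _)).inv (CI.kr (mulR_equivar _)).cl
  refine ⟨z, ?_⟩
  rw [kerDim_eq, ← hz, h3]
  unfold dm
  rw [← ker_mulR]

section Letters

variable {A Q M V : Type} [Group A] [Group Q] [MulAction Q M] [MulAction Q V]

/-- elements which act trivially on the letters -/
lemma sd_triv {X : Type} [MulAction A X] {g : Sd X A} (h : ∀ x : X, g.right • x = x)
    {f : TA X A} (hf : g • f = f) (δ : TD X A) : g • δ = δ := by
  have h1 : g.left * phi X A g.right (f : FreeGroup X) = f := hf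
  have hph : ∀ f : FreeGroup X, phi X A g.right f = f := fun f => by
    have h2 : phi X A g.right = 1 := by
      ext y
      induction y using FreeGroup.induction_on with
      | C1 => simp
      | of x => rw [phi_of, h, MulAut.one_apply]
      | inv_of x ih => rw [map_inv, ih, map_inv]
      | mul x y hx hy => rw [map_mul, hx, hy, map_mul]
    rw [h2, MulAut.one_apply]
  have h2 : g.left = 1 := mul_eq_right.mp
    ((congrArg (fun y : FreeGroup X => g.left * y) (hph (f : FreeGroup X))).symm.trans h1)
  obtain ⟨f', x, c⟩ := δ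
  show ((g.left * phi X A g.right f', g.right • x, c) : FreeGroup X × X × Bool) = (f', x, c)
  rw [hph, h2, one_mul, h]

/-- the formula for the tree of the free group on the letters, over a set which maps to a set with
good stabilisers -/
theorem af_letters (π : A →* Q) (hA : AtiyahOver k A) {X : Type} [MulAction A X]
    (hX : ∀ a : A, π a = 1 → ∀ x : X, a • x = x) (o : M → V) (ho : ∀ (q : Q) m, o (q • m) = q • o m)
    (hV : ∀ v : V, PW k (MulAction.stabilizer Q v)) :
    AF k (Sd X A)
      (Prod.map (ta X A) id : TD X A × Via (π.comp (rh X A)) M → TA X A × Via (π.comp (rh X A)) M)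
      (Prod.map (tb X A) id :
        TD X A × Via (π.comp (rh X A)) M → TB X A × Via (π.comp (rh X A)) M) := by
  have ha : Eqv (Sd X A) (Prod.map (ta X A) id :
      TD X A × Via (π.comp (rh X A)) M → TA X A × Via (π.comp (rh X A)) M) := by
    rintro g ⟨δ, c⟩
    rfl
  have hb : Eqv (Sd X A) (Prod.map (tb X A) id :
      TD X A × Via (π.comp (rh X A)) M → TB X A × Via (π.comp (rh X A)) M) := by
    rintro g ⟨δ, c⟩
    exact Prod.ext (tb_smul _ _ g δ) rfl
  have hkey : KeyS k (Sd X A) (Prod.map (ta X A) id :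
      TD X A × Via (π.comp (rh X A)) M → TA X A × Via (π.comp (rh X A)) M) := by
    refine keyS_of_stab _ ha ?_
    rintro ⟨f, m⟩
    let i3 : MulAction (MulAction.stabilizer (Sd X A)
        ((f, m) : TA X A × Via (π.comp (rh X A)) M))
      {δ : TD X A × Via (π.comp (rh X A)) M // Prod.map (ta X A) id δ = (f, m)} :=
      fibAct _ ha (f, m)
    refine hV (o m) (MulAction.stabilizer (Sd X A) ((f, m) : TA X A × Via (π.comp (rh X A)) M))
      (MonoidHom.mk' (fun g => ⟨π (rh X A g.1), ?_⟩) fun a b => ?_) ?_ _ ?_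
    · have h1 : g.1 • m = m := (Prod.mk.inj g.2).2
      have h2 : π (rh X A g.1) • (ofVia m) = ofVia m := h1
      show π (rh X A g.1) • o (ofVia m) = o (ofVia m)
      rw [← ho, h2]
    · exact Subtype.ext (by simp)
    · refine AtiyahOver.of_injective (stab_ta hA f) (MonoidHom.mk' (fun g =>
        (⟨g.1, (Prod.mk.inj g.2).1⟩ : MulAction.stabilizer (Sd X A) f)) fun a b => rfl) ?_
      intro a b hab
      exact Subtype.ext (congrArg (fun x : MulAction.stabilizer (Sd X A) f => x.1) hab)
    · rintro g hg ⟨⟨δ, c⟩, hδ⟩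
      apply Subtype.ext
      have h1 : π (rh X A g.1) = 1 := congrArg Subtype.val hg
      have h2 : c = m := (Prod.mk.inj hδ).2
      show (g.1 • δ, g.1 • c) = (δ, c)
      refine Prod.ext ?_ ?_
      · exact sd_triv (fun x => hX _ h1 x) (Prod.mk.inj g.2).1 δ
      · rw [h2]
        exact (Prod.mk.inj g.2).2
  refine af_of_keys ha hb (Half.prod (t_half X A) _) hkey ?_
  intro ι _ d P hP hl u Y hY ε hε
  refine key_of_stab hb ?_ d hP hl u hY hε
  rintro g ⟨δ, c⟩ h
  have h2 : g • c = c := congrArg Prod.snd h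
  exact Prod.ext (stab_dart g δ (congrArg Prod.fst h)) h2

end Letters

/-- subgroups -/
theorem pw_of_inj {Q Q' : Type} [Group Q] [Group Q'] (f : Q →* Q') (hf : Function.Injective f)
    (h : PW k Q') : PW k Q := by
  intro A _ π hA X _ hX
  refine h A (f.comp π) hA X fun a ha x => hX a ?_ x
  exact (injective_iff_map_eq_one f).1 hf _ ha

section Forest

variable {Q D V E : Type} [Group Q] [MulAction Q D] [MulAction Q V] [MulAction Q E]

/-- the class is closed under actions on trees, given by darts, vertices and edges -/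
theorem pw_forest {α0 : D → V} {α1 : D → E} (h0 : Eqv Q α0) (h1 : Eqv Q α1)
    (hedge : ∀ (g : Q) (δ : D), g • α1 δ = α1 δ → g • δ = δ) (hhalf : Half α0 α1)
    (hconn : ∀ δ δ', Conn α0 α1 δ δ') (o : E → V) (ho : ∀ (g : Q) e, o (g • e) = g • o e)
    (δ0 : D) (h : ∀ v : V, PW k (MulAction.stabilizer Q v)) : PW k Q := by
  intro A _ π hA X _ hX
  rcases isEmpty_or_nonempty X with he | ⟨⟨x0⟩⟩
  · intro ι _ ξ P hP hl u Y hY ε hε
    have hι : IsEmpty ι := ⟨fun i => he.false (ξ i)⟩
    refine ⟨⊥, Rat.bot ξ, ?_⟩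
    rw [dm_isEmpty, dm_isEmpty, dm_isEmpty, dm_isEmpty]
    linarith
  -- the group with letters
  set L := Lett X with hL
  have hXL : ∀ a : A, π a = 1 → ∀ x : L, a • x = x := fun a ha x => Prod.ext (hX a ha x.1) rfl
  set Γ := Sd L A with hΓ
  set π1 : Γ →* Q := π.comp (rh L A) with hπ1
  -- the formula over the vertices and over the edges
  have hf0 := af_letters (k := k) π hA hXL (id : V → V) (fun _ _ => rfl) h
  have hf1 := af_letters (k := k) π hA hXL o ho h
  -- integrality over the vertices
  have hIV : Int0 k Γ (Via π1 V) := by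
    refine int_of_af (β := fun x : TD L A × Via π1 V => x.2) ?_ ?_ ?_ ?_ ?_ hf0 (int_ta hA)
      (int_tb hA)
    · rintro g ⟨δ, c⟩
      rfl
    · rintro g ⟨δ, c⟩
      exact Prod.ext (tb_smul _ _ g δ) rfl
    · rintro g ⟨δ, c⟩
      rfl
    · intro w
      exact ⟨(((1 : FreeGroup L), ((x0, 0) : L), true), w), rfl⟩
    · rintro ⟨δ, u⟩ ⟨δ', u'⟩ hu
      have hu' : u = u' := hu
      subst hu'
      exact conn_prod (t_conn L A δ δ') u
  -- the formula for the tree
  have hkeyT : KeyS (D := Via π1 D) (V := Via π1 V) k Γ α0 := by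
    refine keyS_of_stab (D := Via π1 D) (V := Via π1 V) α0 (fun g δ => h0 (π1 g) δ) fun v => ?_
    let i3 := fibAct (G := Γ) (D := Via π1 D) (V := Via π1 V) α0 (fun g δ => h0 (π1 g) δ) v
    refine h v (MulAction.stabilizer Γ v)
      (MonoidHom.mk' (fun g => ⟨π1 g.1, g.2⟩) fun a b => Subtype.ext (by simp))
      (atiyah_stab hIV v) _ ?_
    rintro g hg ⟨δ, hδ⟩
    apply Subtype.ext
    have h1 : π1 g.1 = 1 := congrArg Subtype.val hg
    show (π1 g.1) • (ofVia δ) = ofVia δ
    rw [h1, one_smul]
  have hAFT : AF (D := Via π1 D) (A := Via π1 V) (B := Via π1 E) k Γ α0 α1 := by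
    refine af_of_keys (D := Via π1 D) (A := Via π1 V) (B := Via π1 E) (fun g δ => h0 (π1 g) δ)
      (fun g δ => h1 (π1 g) δ) hhalf hkeyT ?_
    intro ι _ d P hP hl u Y hY ε hε
    exact key_of_stab (D := Via π1 D) (A := Via π1 E)
      (a := α1) (fun g δ => h1 (π1 g) δ) (fun g δ hg => hedge (π1 g) δ hg) d hP hl u hY hε
  -- the product of the trees
  refine key_of_af hA ?_
  have hprod := product (G := Γ) (D := Via π1 D) (A := Via π1 V)
      (B := Via π1 E) (W := Via (rh L A) Unit)
      (a := α0) (b := α1) (β := fun _ => toVia _ ()) (βA := fun _ => toVia _ ())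
      (βB := fun _ => toVia _ ()) (fun g δ => h0 (π1 g) δ) (fun g δ => h1 (π1 g) δ)
      (fun g δ => rfl)
      (fun g δ => rfl) (fun g δ => rfl) (fun δ => rfl) (fun δ => rfl)
      (fun w => ⟨toVia _ δ0, rfl⟩) (fun δ δ' _ => hconn δ δ')
      (ta_smul L A) (tb_smul L A) (fun f => ⟨((f : FreeGroup L), ((x0, 0) : L), true), rfl⟩)
      (fun f => ⟨((f.1 : FreeGroup L), f.2, true), rfl⟩) (t_conn L A) hAFT hf0 hf1
  exact hprod

end Forest

section Tree

variable {Q V : Type} [Group Q] [MulAction Q V]

/-- the class is closed under actions on trees -/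
theorem pw_tree (T : SimpleGraph V) (hT : T.IsTree)
    (hadj : ∀ (g : Q) (u v : V), T.Adj u v → T.Adj (g • u) (g • v))
    (hinv : ∀ (g : Q) (u v : V), T.Adj u v → ¬ (g • u = v ∧ g • v = u))
    (h : ∀ v : V, PW k (MulAction.stabilizer Q v)) : PW k Q := by
  have hne : Nonempty V := hT.connected.nonempty
  obtain ⟨v0⟩ := hne
  by_cases hd : Nonempty T.Dart
  swap
  · -- no edges: a single vertex
    have hs : ∀ v : V, v = v0 := by
      intro v
      by_contra hne
      obtain ⟨w⟩ := hT.connected.preconnected v v0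
      cases w with
      | nil => exact hne rfl
      | cons h _ => exact hd ⟨⟨(_, _), h⟩⟩
    refine pw_of_inj (MonoidHom.mk' (fun g : Q =>
      (⟨g, hs _⟩ : MulAction.stabilizer Q v0)) fun a b => rfl) ?_ (h v0)
    intro a b hab
    exact congrArg (fun x : MulAction.stabilizer Q v0 => x.1) hab
  obtain ⟨δ0⟩ := hd
  let i1 : MulAction Q T.Dart := dartAct T hadj
  let i2 : MulAction Q {e : Sym2 V // e ∈ T.edgeSet} := edgeAct T hadj
  obtain ⟨o, ho⟩ := exists_orient T hadj hinv
  have h1 : Eqv Q (fun e : T.Dart => (⟨e.edge, e.edge_mem⟩ : {e : Sym2 V // e ∈ T.edgeSet})) :=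
    fun g δ => rfl
  refine pw_forest (α0 := fun e : T.Dart => e.fst)
    (α1 := fun e : T.Dart => (⟨e.edge, e.edge_mem⟩ : {e : Sym2 V // e ∈ T.edgeSet}))
    (fun g δ => rfl) h1 ?_ (tree_half T hT) (tree_conn T hT) o ho δ0 h
  intro g δ hg
  rw [← h1] at hg
  have h2 : (g • δ).edge = δ.edge := congrArg Subtype.val hg
  rw [SimpleGraph.dart_edge_eq_iff] at h2
  rcases h2 with h2 | h2
  · exact h2
  · exfalso
    apply hinv g δ.fst δ.snd δ.adj
    exact ⟨congrArg (fun e : T.Dart => e.fst) h2, congrArg (fun e : T.Dart => e.snd) h2⟩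

end Tree

end Pool.Agent.CW
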